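import Pool.Agent.H72.OWN.Cfl
import Pool.Agent.H6.OWN.Her
import Pool.Agent.H62.OWN.LabI

/-!
# Affine closed labels: from labels of degree one, from closed gradients, in a subclass

`cla_lb`: a closed label of degree one is an affine closed label of the velocities. `cla_grd`: so
are gradients at the exact points which are functions of the line in the window. `hasA_of`:
affine closed labels on parts of the events are labels on all events of a subclass.
-/

set_option autoImplicit false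

namespace Pool.PRV

open Finset MvPolynomial
open Pool.Agent.H49.Ent Pool.Agent.H32.Dense Pool.STK Pool.KA Pool.KSAT Pool.K2S Pool.PB Pool.GEN
open Pool.S6C
open Pool.JVE (DpI)
open Pool.OWN72 (Cl1 ClA HasA)

variable {m J : ℕ}

/-- The derivatives of a polynomial of degree one are constants. -/
theorem pd_const {G : MvPolynomial (Option (Fin m)) ℝ} (h : G.totalDegree ≤ 1)
    (o : Option (Fin m)) (b b' : Option (Fin m) → ℝ) :
    eval b (pderiv o G) = eval b' (pderiv o G) := by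
  have h1 := Pool.KS3.SML.totalDegree_pderiv_le o G 0 h
  rw [Nat.le_zero, totalDegree_eq_zero_iff_eq_C] at h1
  rw [h1, eval_C, eval_C]

theorem cla_mono {F : Fam m J} {A : F.Ω → Prop} {I : Finset (Fin m)} {v : Fin m}
    {w w' e e' M M' : ℕ} {a : PtT F → Fin m → ℝ} {c : PtT F → ℝ} (h : ClA F A I v w e M a c)
    (hw : w ≤ w') (hw' : w' ≤ J) (he : e ≤ e') (hM : M' ≤ M) : ClA F A I v w' e' M' a c := by
  have h1 : (2 : ℝ) ^ e ≤ 2 ^ e' := pow_le_pow_right₀ (by norm_num) he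
  refine ⟨fun ω hω => ?_, fun k hk => (h.ca k hk).win hw hw', h.cc.win hw hw'⟩
  obtain ⟨h2, h3, h4⟩ := h.dp ω hω
  exact ⟨fun k hk => (h2 k hk).trans h1, h3.trans h1, h4.trans (inv_mono hM)⟩

/-- The trivial label. -/
theorem cla_triv (F : Fam m J) (A : F.Ω → Prop) (I : Finset (Fin m)) (v : Fin m) (w e : ℕ) :
    ClA F A I v w e 0 (fun _ _ => 0) (fun _ => 0) := by
  refine ⟨fun ω _ => ⟨fun k _ => ?_, ?_, ?_⟩, fun k _ => ⟨fun _ => 0, fun _ _ => rfl⟩,
    ⟨fun _ => 0, fun _ _ => rfl⟩⟩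
  · rw [abs_zero]
    positivity
  · rw [abs_zero]
    positivity
  · simp only [zero_mul, Finset.sum_const_zero, sub_zero, pow_zero, div_one]
    exact F.dir ω v

/-- **A closed label of degree one is an affine closed label of the velocities.** -/
theorem cla_lb {F : Fam m J} {A : F.Ω → Prop} {I : Finset (Fin m)} {k : Fin m}
    {e w ρ Q M : ℕ} (h : Lb F I k 1 e J w ρ Q A) (hM : M + w ≤ Q) :
    ∃ (a : PtT F → Fin m → ℝ) (c : PtT F → ℝ), ClA F A I k w e M a c := by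
  classical
  obtain ⟨V, z, z', G, h⟩ := h
  refine ⟨fun p j => eval (fun _ => 0) (pderiv (some j) (G (z p))),
    fun p => eval (fun _ => 0) (pderiv none (G (z p))), ?_, fun j _ =>
    ⟨fun s => eval (fun _ => 0) (pderiv (some j) (G (z' s))), fun ω hω => ?_⟩,
    ⟨fun s => eval (fun _ => 0) (pderiv none (G (z' s))), fun ω hω => ?_⟩⟩
  · intro ω hω
    have hz := h.cls ω hω
    have hl := h.lip ω hω (bt F ω) (fun o => by
      rw [sub_self, abs_zero]
      positivity)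
    have hv := h.vel ω hω
    rw [← hz] at hl hv
    refine ⟨fun j _ => ?_, ?_, ?_⟩
    · show |eval (fun _ => 0) (pderiv (some j) (G (z (ptr F J ω))))| ≤ _
      rw [pd_const (h.deg _) _ _ (bt F ω)]
      exact hl _
    · show |eval (fun _ => 0) (pderiv none (G (z (ptr F J ω))))| ≤ _
      rw [pd_const (h.deg _) _ _ (bt F ω)]
      exact hl _
    · show |F.d ω k - eval (fun _ => 0) (pderiv none (G (z (ptr F J ω)))) -
        ∑ j ∈ I, eval (fun _ => 0) (pderiv (some j) (G (z (ptr F J ω)))) * F.d ω j| ≤ _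
      have h0 : ∀ j : Fin m, j ∉ I → eval (bt F ω) (pderiv (some j) (G (z (ptr F J ω)))) = 0 := by
        intro j hj
        refine pderiv_dep _ _ (fun b b' hb => h.dep _ b b' (hb none (by simp)) fun l hl => ?_) _
        refine hb (some l) fun he => hj ?_
        have := Option.some.inj he
        rwa [this] at hl
      rw [Fintype.sum_option] at hv
      have h1 : ∑ j, bd F ω (some j) * eval (bt F ω) (pderiv (some j) (G (z (ptr F J ω)))) =
          ∑ j ∈ I, eval (fun _ => 0) (pderiv (some j) (G (z (ptr F J ω)))) * F.d ω j := by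
        rw [← Finset.sum_subset (Finset.subset_univ I)
          (f := fun j => bd F ω (some j) * eval (bt F ω) (pderiv (some j) (G (z (ptr F J ω)))))
          (fun j _ hj => by rw [h0 j hj, mul_zero])]
        refine Finset.sum_congr rfl fun j _ => ?_
        rw [pd_const (h.deg _) (some j) (bt F ω) (fun _ => 0), mul_comm]
        rfl
      rw [h1] at hv
      have h2 : bd F ω none * eval (bt F ω) (pderiv none (G (z (ptr F J ω)))) =
          eval (fun _ => 0) (pderiv none (G (z (ptr F J ω)))) := by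
        rw [pd_const (h.deg _) none (bt F ω) (fun _ => 0)]
        show 1 * _ = _
        rw [one_mul]
      rw [h2, ← sub_sub] at hv
      refine hv.trans ?_
      rw [div_le_div_iff₀ (by positivity) (by positivity), one_mul, ← pow_add]
      exact pow_le_pow_right₀ (by norm_num) (by omega)
  · show eval (fun _ => 0) (pderiv (some j) (G (z (ptr F J ω)))) = _
    rw [h.cls ω hω]
  · show eval (fun _ => 0) (pderiv none (G (z (ptr F J ω)))) = _
    rw [h.cls ω hω]

/-- Closed on a part of the windows: one of the finer windows. -/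
theorem win_cut {F : Fam m J} (w g : ℕ) (hw : w + g ≤ J) (A : F.Ω → Prop) :
    ∃ B : F.Ω → Prop, Sub B A ∧ Pe F.p A ≤ 2 ^ g * Pe F.p B ∧
      ∃ i : ℕ, ∀ ω, B ω → F.T1 (w + g) ω = 2 ^ g * F.T1 w ω + i := by
  classical
  have key : Pe F.p A ≤ ∑ i ∈ Finset.range (2 ^ g),
      Pe F.p (fun ω => A ω ∧ F.T1 (w + g) ω % 2 ^ g = i) := by
    simp only [Pe_eq]
    rw [Finset.sum_comm]
    refine Finset.sum_le_sum fun ω _ => ?_
    by_cases hA : A ω
    · rw [if_pos hA]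
      have hmem : F.T1 (w + g) ω % 2 ^ g ∈ Finset.range (2 ^ g) :=
        Finset.mem_range.2 (Nat.mod_lt _ (by positivity))
      have := Finset.single_le_sum (f := fun i => if A ω ∧ F.T1 (w + g) ω % 2 ^ g = i
        then F.p ω else 0) (fun c _ => by split_ifs <;> simp [F.isLaw.nonneg ω]) hmem
      simpa [hA] using this
    · rw [if_neg hA]
      exact Finset.sum_nonneg fun c _ => by split_ifs <;> simp [F.isLaw.nonneg ω]
  obtain ⟨i, hi, hiP⟩ : ∃ i ∈ Finset.range (2 ^ g), Pe F.p A ≤ 2 ^ g *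
      Pe F.p (fun ω => A ω ∧ F.T1 (w + g) ω % 2 ^ g = i) := by
    by_contra hcon
    push Not at hcon
    have h1 : ∑ i ∈ Finset.range (2 ^ g), (2 : ℝ) ^ g *
        Pe F.p (fun ω => A ω ∧ F.T1 (w + g) ω % 2 ^ g = i) <
        ∑ _i ∈ Finset.range (2 ^ g), Pe F.p A :=
      Finset.sum_lt_sum_of_nonempty (Finset.nonempty_range_iff.2 (by positivity)) hcon
    rw [← Finset.mul_sum, Finset.sum_const, nsmul_eq_mul, Finset.card_range] at h1
    push_cast at h1
    have h3 := lt_of_mul_lt_mul_left h1 (by positivity)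
    linarith
  refine ⟨fun ω => A ω ∧ F.T1 (w + g) ω % 2 ^ g = i, fun ω hω => hω.1, hiP, i, fun ω hω => ?_⟩
  rw [T1_div F hw ω]
  have h1 := Nat.div_add_mod (F.T1 (w + g) ω) (2 ^ g)
  rw [hω.2] at h1
  exact h1.symm

/-- Affine closed labels of a finer window. -/
theorem cla_cut {F : Fam m J} {A : F.Ω → Prop} {I : Finset (Fin m)} {v : Fin m}
    {w g e M : ℕ} {a : PtT F → Fin m → ℝ} {c : PtT F → ℝ} (h : ClA F A I v (w + g) e M a c)
    (hw : w + g ≤ J) : ∃ B : F.Ω → Prop, Sub B A ∧ Pe F.p A ≤ 2 ^ g * Pe F.p B ∧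
      ClA F B I v w e M a c := by
  obtain ⟨B, b1, b2, i, b3⟩ := win_cut w g hw A
  have hs : ∀ f : PtT F → ℝ, Cl1 F A (w + g) f → Cl1 F B w f := by
    rintro f ⟨f', hf⟩
    refine ⟨fun s => f' (s.1, s.2.1, 2 ^ g * s.2.2 + i), fun ω hω => ?_⟩
    rw [hf ω (b1 ω hω)]
    show f' (F.l ω, F.Z ω, F.T1 (w + g) ω) = f' (F.l ω, F.Z ω, 2 ^ g * F.T1 w ω + i)
    rw [b3 ω hω]
  exact ⟨B, b1, b2, h.dp.sub b1, fun k hk => hs _ (h.ca k hk), hs _ h.cc⟩

/-- **Closed gradients are affine closed labels.** -/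
theorem cla_grd {F : Fam m J} {A : F.Ω → Prop} {I : Finset (Fin m)} {v : Fin m}
    {av : PtT F → Fin m → ℝ} {cv : PtT F → ℝ} {th : LnT F → Fin m → ℝ} {W M e Q : ℕ} (hW : W ≤ J)
    (hdp : DpI F A I v e M av cv)
    (h3 : ∀ ω, A ω → ∀ k ∈ I, |th (slam F W ω) k - av (ptr F J ω) k| ≤ 1 / 2 ^ M)
    (h4 : W + M + e + m + 3 ≤ J) (h5 : Q + m + 3 ≤ M) :
    ∃ B : F.Ω → Prop, Sub B A ∧ Pe F.p A ≤ Pool.JVE.cI m * Pe F.p B ∧
      ∃ (a : PtT F → Fin m → ℝ) (c : PtT F → ℝ), ClA F B I v W (e + 1) Q a c := by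
  obtain ⟨B, b1, b2, b3⟩ := Pool.JVE.lab_grd (P := Q + W) hW hdp h3 h4 (by omega)
  exact ⟨B, b1, b2, cla_lb (b3 0) le_rfl⟩

/-- **Affine closed labels in a subclass.** -/
theorem hasA_of {S : PCl m} (hS : S.Ne) (I : ℕ → Finset (Fin m)) (v : ℕ → Fin m) (w N : ℕ → ℝ)
    (hw : ∀ n, w n ≤ 1)
    (h : ∀ n, ∀ x : ℝ, 0 < x → ∃ C : ℝ, Bas S (fun J F A => ∃ B : F.Ω → Prop, Sub B A ∧
      Pe F.p A ≤ C * Pe F.p B ∧ ∃ (a : PtT F → Fin m → ℝ) (c : PtT F → ℝ),
        ClA F B (I n) (v n) ⌊w n * J⌋₊ ⌊x * J⌋₊ ⌊(N n - w n - x) * J⌋₊ a c)) :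
    ∃ S' : PCl m, S'.Ne ∧
      (∀ (τ : ℝ) (J : ℕ) (F : Fam m J) (A : F.Ω → Prop), S'.St τ J F A → S.St τ J F A) ∧
      ∀ n, HasA S' (I n) (v n) (w n) (N n) := by
  obtain ⟨S', h1, h2, h3⟩ := Pool.MIC6.her_sub hS
    (fun n J F A => ∃ (a : PtT F → Fin m → ℝ) (c : PtT F → ℝ),
      ClA F A (I n.unpair.1) (v n.unpair.1) ⌊w n.unpair.1 * J⌋₊ ⌊1 / ((n.unpair.2 : ℝ) + 1) * J⌋₊
        ⌊(N n.unpair.1 - w n.unpair.1 - 1 / ((n.unpair.2 : ℝ) + 1)) * J⌋₊ a c)
    (fun n J F A B hB ⟨a, c, h⟩ => ⟨a, c, h.sub hB⟩)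
    (fun n => h n.unpair.1 _ (by positivity))
  refine ⟨S', h1, h2, fun n x hx => ?_⟩
  obtain ⟨k, hk⟩ := exists_nat_one_div_lt hx
  have h4 := h3 (Nat.pair n k)
  simp only [Nat.unpair_pair] at h4
  refine Bas.mono 0 h4 ?_
  rintro J - F A ⟨a, c, h5⟩
  have hJ0 : (0 : ℝ) ≤ J := Nat.cast_nonneg J
  refine ⟨a, c, cla_mono h5 le_rfl ?_ ?_ ?_⟩
  · have : ⌊w n * (J : ℝ)⌋₊ ≤ ⌊(1 : ℝ) * J⌋₊ :=
      Nat.floor_le_floor (mul_le_mul_of_nonneg_right (hw n) hJ0)
    rwa [one_mul, Nat.floor_natCast] at this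
  · exact Nat.floor_le_floor (mul_le_mul_of_nonneg_right hk.le hJ0)
  · exact Nat.floor_le_floor (mul_le_mul_of_nonneg_right (by linarith) hJ0)

end Pool.PRV
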