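import Pool.Agent.H21.PRV.Tri
import Pool.Agent.H91.LA.Aff
import Pool.Agent.H45.EXA.Dwn
import Pool.Agent.H45.EXA.Nbc
import Pool.Agent.H6.OWN.Ngi

/-!
# Full bases: the numbers do not depend on the radius

`lb_ful`: a closed label over a full base has bounded gradients on the balls of the window, on half
of the event (Remez inequality). `num_ful`: so `L I k w' r ≤ L I k w t` for `w' < w < t`, any `r`.
`par1`, `par1_ful`: affine closed labels over one active coordinate, for the numbers of any radius.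
-/

set_option autoImplicit false

namespace Pool.PRV

open Finset MvPolynomial
open Pool.Agent.H49.Ent Pool.Agent.H32.Dense Pool.STK Pool.KA Pool.KSAT Pool.K2S Pool.PB Pool.GEN
open Pool.S6C
open Pool.JVE (DpI)
open Pool.OWN72 (Cl1 ClA HasA RepP)
open Pool.MIC6 (ActF Dp dp_cls aff_ocn AfO)
open Pool.LA91 (Ful FulC uni_ball)
open Pool.UNJ (ceI)
open Pool.BFL (Pb)

variable {m J : ℕ}

/-- **Bounded gradients on the balls of the window**, over a full base. -/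
theorem lb_ful {S : PCl m} {C₀ : ℝ} (htm : TmC S C₀) {I : Finset (Fin m)} {k : Fin m}
    {w t : ℝ} (hwt : w ≤ t) (ht0 : 0 ≤ t) (ht1 : t < 1) (hful : Ful S I w t) {K : ℕ}
    {e r P δ : ℝ} (he : 0 ≤ e) (hδ : 0 < δ)
    (h : Bas S (fun J F A => Lb F I k K ⌊e * J⌋₊ J ⌊w * J⌋₊ ⌊r * J⌋₊ ⌊P * J⌋₊ A)) :
    Bas S (fun J F A => ∃ B : F.Ω → Prop, Sub B A ∧ Pe F.p A ≤ 2 * Pe F.p B ∧
      Lb F I k K ⌊(e + δ) * J⌋₊ J ⌊w * J⌋₊ ⌊t * J⌋₊ ⌊P * J⌋₊ B) := by
  classical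
  obtain ⟨C, hC, hball⟩ := uni_ball m (2 * K)
  obtain ⟨g, hg⟩ : ∃ g, g = min δ (1 - t) := ⟨_, rfl⟩
  have hg0 : 0 < g := by rw [hg]; exact lt_min hδ (by linarith)
  have hgδ : g ≤ δ := by rw [hg]; exact min_le_left _ _
  have hgt : g ≤ 1 - t := by rw [hg]; exact min_le_right _ _
  obtain ⟨ρ, hρ⟩ : ∃ ρ, ρ = g / (16 * C) := ⟨_, rfl⟩
  have hρ0 : 0 < ρ := by rw [hρ]; positivity
  have hρC : 16 * (C * ρ) = g := by
    rw [hρ]
    field_simp
  obtain ⟨J₁, hJ₁⟩ := exists_nat_ge ((8 * C + 2 * Real.log (m + 1) + 8) / g)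
  refine Bas.mono J₁ ((h.and (hful ρ hρ0)).and (Pool.GRW.tmc_bas htm hρ0)) ?_
  rintro J hJ F A ⟨⟨⟨V, z, z', G, lab⟩, hfl⟩, hPA, htime⟩
  have hJ0 : (0 : ℝ) ≤ J := Nat.cast_nonneg J
  have hlm : 0 ≤ Real.log ((m : ℝ) + 1) :=
    Real.log_nonneg (by linarith [(Nat.cast_nonneg m : (0 : ℝ) ≤ m)])
  have q0 : 8 * C + 2 * Real.log (m + 1) + 8 ≤ g * J := by
    have h1 : (J₁ : ℝ) ≤ J := by exact_mod_cast hJ
    have h2 := hJ₁.trans h1
    rw [div_le_iff₀ hg0] at h2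
    linarith
  have l2 := Real.log_two_gt_d9
  have l2' := Real.log_two_lt_d9
  obtain ⟨q, hq⟩ : ∃ q, q = Pool.Agent.H49.Ent.cond F.p A True := ⟨_, rfl⟩
  have hqL : IsLaw q := by rw [hq]; exact isLaw_cond F.isLaw hPA
  obtain ⟨u, hu⟩ : ∃ u, u = ⌊t * (J : ℝ)⌋₊ := ⟨_, rfl⟩
  obtain ⟨wn, hwn⟩ : ∃ wn, wn = ⌊w * (J : ℝ)⌋₊ := ⟨_, rfl⟩
  obtain ⟨en, hen⟩ : ∃ en, en = ⌊e * (J : ℝ)⌋₊ := ⟨_, rfl⟩
  have hf := hfl V z z' lab.cls
  rw [← hwn] at lab hf ⊢
  rw [← hen] at lab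
  rw [← hu] at hf ⊢
  rw [← hq] at hf htime
  have f1 : (u : ℝ) ≤ t * J := by rw [hu]; exact Nat.floor_le (by positivity)
  have f1' : t * J ≤ J := by nlinarith
  have hcast : ∀ a b : ℕ, (a : ℝ) ≤ b → a ≤ b := fun a b h => by exact_mod_cast h
  have huJ : u ≤ J := hcast _ _ (by linarith)
  have hwu : wn ≤ u := by
    rw [hwn, hu]
    exact Nat.floor_le_floor (mul_le_mul_of_nonneg_right hwt hJ0)
  have hX : ((J - u : ℕ) : ℝ) = J - u := by rw [Nat.cast_sub huJ]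
  obtain ⟨D, hD⟩ : ∃ D : V → MvPolynomial (Option (Fin m)) ℝ,
    D = fun x => ∑ o, (pderiv o (G x)) ^ 2 := ⟨_, rfl⟩
  obtain ⟨T, hT⟩ : ∃ T : ℝ, T = (m + 1) * (2 ^ en) ^ 2 := ⟨_, rfl⟩
  have hT0 : 0 < T := by rw [hT]; positivity
  have hDe : ∀ x b, eval b (D x) = ∑ o, (eval b (pderiv o (G x))) ^ 2 := by
    intro x b
    rw [hD]
    simp only [map_sum, map_pow]
  have hDn : ∀ x b, 0 ≤ eval b (D x) := by
    intro x b
    rw [hDe]
    exact Finset.sum_nonneg fun _ _ => sq_nonneg _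
  obtain ⟨E, hE⟩ : ∃ E : ℝ, E = Real.exp (C * (ρ * J + ρ * J + 1) / (1 / 2)) := ⟨_, rfl⟩
  have key := hball J F q I wn u (J - u) V (fun ω => z' (slam F wn ω)) D A T (ρ * J)
    (ρ * J) (1 / 2) hqL htime (by omega) (fun ω ω' h => by simp only [h]) (fun x => by
      rw [hD]
      refine totalDegree_finsetSum_le fun o _ => ?_
      refine (totalDegree_pow _ _).trans (Nat.mul_le_mul_left 2 ?_)
      exact (Pool.Agent.H50.PW.totalDegree_pderiv_le _ _).trans (lab.deg _)) (fun x b b' h0 h1 => by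
      rw [hDe, hDe]
      refine Finset.sum_congr rfl fun o _ => ?_
      rw [dep_pd (G x) (fun o => o = none ∨ ∃ i ∈ I, o = some i) (fun c c' hc =>
        lab.dep x c c' (hc none (Or.inl rfl)) fun i hi => hc (some i) (Or.inr ⟨i, hi, rfl⟩))
        o b b' (by
          rintro o' (rfl | ⟨i, hi, rfl⟩)
          · exact h0
          · exact h1 i hi)]) hwu (by positivity) (by positivity) (by norm_num) (by norm_num)
    hT0 (by
      have e1 : u + (J - u) = J := by omega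
      rw [e1]
      exact hf) (by
      have h0 : Pb q (fun ω => ¬ A ω) = 0 := by
        unfold Pb
        refine Finset.sum_eq_zero fun ω _ => ?_
        by_cases hA : A ω
        · simp [hA]
        · rw [hq]
          unfold Pool.Agent.H49.Ent.cond
          simp [hA]
      rw [h0]
      positivity) (by
      rw [hX]
      have h1 : (1 - t) * J * (1 / 2) ≤ ((J : ℝ) - u) * Real.log 2 :=
        mul_le_mul (by linarith) (by linarith) (by norm_num) (by linarith)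
      have h2 : g * J ≤ (1 - t) * J := mul_le_mul_of_nonneg_right hgt hJ0
      have h3 : C * (ρ * J + ρ * J + 1) / (1 / 2) = (16 * (C * ρ)) * J / 4 + 2 * C := by ring
      rw [h3, hρC]
      linarith) (fun ω hω => by
      rw [abs_of_nonneg (hDn _ _), hDe, hT]
      refine (Finset.sum_le_card_nsmul _ _ ((2 ^ en) ^ 2) fun o _ => ?_).trans (le_of_eq ?_)
      · refine sq_le_sq.2 ?_
        rw [abs_of_nonneg (by positivity : (0 : ℝ) ≤ 2 ^ en)]
        exact lab.lip ω hω (bt F ω) (fun o => by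
          rw [sub_self, abs_zero]
          positivity) o
      · rw [Finset.card_univ, Fintype.card_option, Fintype.card_fin, nsmul_eq_mul]
        push_cast
        ring)
  rw [← hE] at key
  obtain ⟨Gd, hGd⟩ : ∃ Gd : F.Ω → Prop, Gd = fun ω => ∀ b : Option (Fin m) → ℝ,
    (∀ o, |b o - bt F ω o| ≤ 2 / 2 ^ u) → |eval b (D (z' (slam F wn ω)))| ≤ E * T := ⟨_, rfl⟩
  have key' : Pb q (fun ω => ¬ Gd ω) ≤ 1 / 2 := by rw [hGd]; exact key
  have hsplit : Pe F.p A = Pe F.p (fun ω => A ω ∧ Gd ω) + Pe F.p (fun ω => A ω ∧ ¬ Gd ω) := by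
    simp_rw [Pe_eq]
    rw [← Finset.sum_add_distrib]
    refine Finset.sum_congr rfl fun ω _ => ?_
    by_cases h1 : A ω <;> by_cases h2 : Gd ω <;> simp [h1, h2]
  have hbad : Pe F.p (fun ω => A ω ∧ ¬ Gd ω) ≤ Pe F.p A / 2 := by
    have h1 : Pb q (fun ω => ¬ Gd ω) = Pe q (fun ω => ¬ Gd ω) := by
      rw [Pe_eq]
      rfl
    rw [h1, hq, Pe_cond, div_le_iff₀ hPA] at key'
    linarith
  refine ⟨fun ω => A ω ∧ Gd ω, fun ω hω => hω.1, by linarith, V, z, z', G, ?_⟩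
  have hle : ⌊e * (J : ℝ)⌋₊ ≤ ⌊(e + δ) * (J : ℝ)⌋₊ :=
    Nat.floor_le_floor (mul_le_mul_of_nonneg_right (by linarith) hJ0)
  -- the size
  obtain ⟨en', hen'⟩ : ∃ en', en' = ⌊(e + δ) * (J : ℝ)⌋₊ := ⟨_, rfl⟩
  rw [← hen']
  have hsz : E * T ≤ (2 ^ en') ^ 2 := by
    have h1 : Real.log (E * T) ≤ Real.log ((2 ^ en') ^ 2) := by
      rw [Real.log_mul (by rw [hE]; exact (Real.exp_pos _).ne') hT0.ne', hE, Real.log_exp, hT,
        Real.log_mul (by positivity) (by positivity), Real.log_pow, Real.log_pow, Real.log_pow,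
        Real.log_pow]
      have h3 : C * (ρ * J + ρ * J + 1) / (1 / 2) = (16 * (C * ρ)) * J / 4 + 2 * C := by ring
      rw [h3, hρC]
      have f2 : (e + δ) * J - 1 < en' := by rw [hen']; exact Nat.sub_one_lt_floor _
      have f3 : (en : ℝ) ≤ e * J := by rw [hen]; exact Nat.floor_le (by positivity)
      have f4 : g * J ≤ δ * J := mul_le_mul_of_nonneg_right hgδ hJ0
      have f5 : (en : ℝ) + (δ * J - 1) ≤ en' := by linarith
      have f6 : ((en : ℝ) + (δ * J - 1)) * Real.log 2 ≤ en' * Real.log 2 :=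
        mul_le_mul_of_nonneg_right f5 (by linarith)
      have f7 : (δ * J - 1) * (1 / 2) ≤ (δ * J - 1) * Real.log 2 :=
        mul_le_mul_of_nonneg_left (by linarith) (by linarith)
      push_cast
      nlinarith
    exact (Real.log_le_log_iff (by
      have : 0 < E := by rw [hE]; exact Real.exp_pos _
      positivity) (by positivity)).1 h1
  refine ⟨lab.deg, lab.dep, fun ω hω => lab.cls ω hω.1, fun ω hω => lab.pos ω hω.1,
    fun ω hω => lab.vel ω hω.1, fun ω hω b hb o => ?_⟩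
  have h2 := hω.2
  rw [hGd] at h2
  have h3 := h2 b (fun o => (hb o).trans (by
    have : (0 : ℝ) < 1 / 2 ^ u := by positivity
    have e2 : (2 : ℝ) / 2 ^ u = 2 * (1 / 2 ^ u) := by ring
    linarith))
  rw [abs_of_nonneg (hDn _ _), hDe] at h3
  have h4 := (Finset.single_le_sum (f := fun o => (eval b (pderiv o (G (z' (slam F wn ω))))) ^ 2)
    (fun _ _ => sq_nonneg _) (Finset.mem_univ o)).trans (h3.trans hsz)
  exact abs_le_of_sq_le_sq h4 (by positivity)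

/-- **The numbers over a full base do not depend on the radius.** -/
theorem num_ful {S : PCl m} (hS : S.Ne) {C₀ : ℝ} (htm : TmC S C₀)
    {L : Finset (Fin m) → Fin m → ℝ → ℝ → ℝ} (hL : LamW S L) {I : Finset (Fin m)} {k : Fin m}
    {w' w t : ℝ} (hw0 : 0 < w) (hw' : w' < w) (hwt : w ≤ t) (ht1 : t < 1)
    (hful : Ful S I w t) (r : ℝ) : L I k w' r ≤ L I k w t := by
  by_contra hcon
  push Not at hcon
  obtain ⟨h, hh⟩ : ∃ h, h = (L I k w t + L I k w' r) / 2 := ⟨_, rfl⟩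
  have hle := hL.le1 I k w' r
  obtain ⟨d, hd, hd1, habs⟩ := hL.abs I k w t h (by linarith) (by linarith)
  obtain ⟨e, he⟩ : ∃ e, e = min (d / 2) (L I k w' r - h) := ⟨_, rfl⟩
  have he0 : 0 < e := by rw [he]; exact lt_min (by linarith) (by linarith)
  have he1 : e ≤ d / 2 := by rw [he]; exact min_le_left _ _
  have he2 : e ≤ L I k w' r - h := by rw [he]; exact min_le_right _ _
  obtain ⟨K, hK⟩ := hL.att I k w' w r e hw0 (hwt.trans ht1.le) hw' he0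
  have h1 := lb_ful htm hwt (hw0.le.trans hwt) ht1 hful he0.le (show 0 < d / 2 by linarith) hK
  have h2 := bas_part (habs d le_rfl K) 2
  obtain ⟨τ, hτ, J₁, hb⟩ := h1.and h2
  obtain ⟨J, hJ, F, A, hA⟩ := hS τ hτ J₁
  obtain ⟨⟨B, b1, b2, b3⟩, b4⟩ := hb J hJ F A hA
  refine b4 B b1 b2 ?_
  have hJ0 : (0 : ℝ) ≤ J := Nat.cast_nonneg J
  refine Lb.mono b3 (Finset.Subset.refl _) le_rfl ?_ le_rfl ?_ ?_ ?_ ?_
  · exact Nat.floor_le_floor (mul_le_mul_of_nonneg_right (by linarith) hJ0)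
  · exact Nat.floor_le_floor (mul_le_mul_of_nonneg_right (by linarith) hJ0)
  · have h3 : ⌊(w + d) * (J : ℝ)⌋₊ ≤ ⌊(1 : ℝ) * J⌋₊ :=
      Nat.floor_le_floor (mul_le_mul_of_nonneg_right hd1 hJ0)
    rwa [one_mul, Nat.floor_natCast] at h3
  · exact Nat.floor_le_floor (mul_le_mul_of_nonneg_right (by linarith) hJ0)
  · exact Nat.floor_le_floor (mul_le_mul_of_nonneg_right (by linarith) hJ0)

/-- The slopes of `v` over `y` are known up to its natural precision for the number `N` at the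
window `W`. -/
def DsH (L : Finset (Fin m) → Fin m → ℝ → ℝ → ℝ) (y v : Fin m) (W N : ℝ) : Prop :=
  ∀ ε : ℝ, 0 < ε → ∃ W' r' b : ℝ, W' < W ∧ 0 ≤ b ∧ b < 1 ∧ N ≤ L {y} v W' r' + ε ∧
    N - W ≤ L {y} v b b - b + ε

/-- The numbers of the unit ball. -/
theorem dsH_zero {S : PCl m} {L : Finset (Fin m) → Fin m → ℝ → ℝ → ℝ} (hL : LamW S L)
    {y v : Fin m} {W N : ℝ} (hW1 : W ≤ 1)
    (h : ∀ ε : ℝ, 0 < ε → ∃ W' : ℝ, 0 ≤ W' ∧ W' < W ∧ N ≤ L {y} v W' 0 + ε) :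
    DsH L y v W N := by
  intro ε hε
  obtain ⟨W', h1, h2, h3⟩ := h ε hε
  refine ⟨W', 0, W', h2, h1, by linarith, h3, ?_⟩
  have h4 := hL.mono {y} {y} v W' W' 0 W' (Finset.Subset.refl _) le_rfl h1
  linarith

/-- **The numbers of any radius**, over a full base. -/
theorem dsH_ful {S : PCl m} (hS : S.Ne) {C₀ : ℝ} (htm : TmC S C₀)
    {L : Finset (Fin m) → Fin m → ℝ → ℝ → ℝ} (hL : LamW S L) {y v : Fin m} {W N : ℝ}
    (hW0 : 0 < W) (hW1 : W < 1) (hful : ∀ t : ℝ, W < t → t < 1 → Ful S {y} W t)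
    (h : ∀ ε : ℝ, 0 < ε → ∃ W' r' : ℝ, W' < W ∧ N ≤ L {y} v W' r' + ε) :
    DsH L y v W N := by
  intro ε hε
  obtain ⟨W', r', h2, h3⟩ := h (ε / 2) (by linarith)
  obtain ⟨t, ht⟩ : ∃ t, t = W + min (ε / 2) ((1 - W) / 2) := ⟨_, rfl⟩
  have ht0 : W < t := by
    rw [ht]
    have : 0 < min (ε / 2) ((1 - W) / 2) := lt_min (by linarith) (by linarith)
    linarith
  have ht1 : t < 1 := by
    rw [ht]
    have : min (ε / 2) ((1 - W) / 2) ≤ (1 - W) / 2 := min_le_right _ _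
    linarith
  have ht2 : t ≤ W + ε / 2 := by
    rw [ht]
    have : min (ε / 2) ((1 - W) / 2) ≤ ε / 2 := min_le_left _ _
    linarith
  refine ⟨W', r', t, h2, by linarith, ht1, by linarith, ?_⟩
  have h4 := num_ful hS htm hL (k := v) hW0 h2 ht0.le ht1 (hful t ht0 ht1) r'
  have h5 := hL.mono {y} {y} v W t t t (Finset.Subset.refl _) ht0.le le_rfl
  linarith

/-- **Affine closed labels over one active coordinate**, for the numbers of any radius. -/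
theorem par1 {S : PCl m} {C₀ : ℝ} (hC₀ : 0 ≤ C₀) (htm : TmC S C₀)
    {L : Finset (Fin m) → Fin m → ℝ → ℝ → ℝ} (hL : LamW S L) {y u : Fin m} (hact : ActF S y)
    {W N : ℝ} (hW0 : 0 < W) (_hW1 : W < 1) (hN : DsH L y u W N) {x : ℝ} (hx : 0 < x) :
    ∃ C : ℝ, Bas S (fun J F A => ∃ B : F.Ω → Prop, Sub B A ∧
      Pe F.p A ≤ C * Pe F.p B ∧ ∃ (a : PtT F → Fin m → ℝ) (c : PtT F → ℝ),
        ClA F B {y} u ⌊W * J⌋₊ ⌊x * J⌋₊ ⌊(N - W - x) * J⌋₊ a c) := by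
  classical
  rcases le_or_gt (N - W) x with hc | hc
  · exact hasA_triv {y} u hc
  obtain ⟨W', r', b, hW', hb0, hb1, hN1, hN2⟩ := hN (x / 16) (by linarith)
  obtain ⟨e₀, he₀, he₀x, h₀⟩ := aff_ocn hC₀ htm hL (κ := y) (ι := u) hact (W' := W') (W := W)
    (r' := r') (x := x / 8) (q := N - x / 2) hW' hW0 (by linarith) (by linarith) (by linarith)
  obtain ⟨e, he⟩ : ∃ e, e = min e₀ (min (x / 32) ((1 - b) / 4)) := ⟨_, rfl⟩
  have he0 : 0 < e := by
    rw [he]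
    exact lt_min he₀ (lt_min (by linarith) (by linarith))
  have he' : e ≤ e₀ ∧ e ≤ x / 32 ∧ e ≤ (1 - b) / 4 := by
    have := he.le
    simp only [le_min_iff] at this
    exact this
  obtain ⟨l1, l2, l3⟩ := he'
  have h₁ := dp_cls hL y u (a₀ := b) (a := b + 3 * e) (e := e) hb0 (by linarith) (by linarith) he0
    le_rfl (by linarith)
  obtain ⟨J₁, hJ₁⟩ := exists_nat_ge ((64 : ℝ) / x)
  refine ⟨20 * 2 ^ 2, Bas.mono J₁ (h₀.and h₁) ?_⟩
  rintro J hJ F A ⟨b₀, au, cu, b₁⟩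
  have hJ0 : (0 : ℝ) ≤ J := Nat.cast_nonneg J
  have hxJ : 64 ≤ x * J := by
    have h2 : (J₁ : ℝ) ≤ J := by exact_mod_cast hJ
    have h3 := hJ₁.trans h2
    rw [div_le_iff₀ hx] at h3
    linarith only [h3]
  obtain ⟨B₁, c1, c2, V, zp, zs, cf, c3⟩ := b₀ au cu _ _
    (Nat.floor_le_floor (mul_le_mul_of_nonneg_right l1 hJ0))
    (Nat.floor_le_floor (mul_le_mul_of_nonneg_right (by linarith) hJ0)) b₁
  have f1 : (⌊W * (J : ℝ)⌋₊ : ℝ) ≤ W * J := Nat.floor_le (by positivity)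
  have f2 : (N - x / 2) * (J : ℝ) - 1 < ⌊(N - x / 2) * (J : ℝ)⌋₊ := Nat.sub_one_lt_floor _
  have f2' : (⌊(N - x / 2) * (J : ℝ)⌋₊ : ℝ) ≤ (N - x / 2) * J :=
    Nat.floor_le (mul_nonneg (by linarith) hJ0)
  have f3 : (⌊(N - W - x) * (J : ℝ)⌋₊ : ℝ) ≤ (N - W - x) * J :=
    Nat.floor_le (mul_nonneg (by linarith) hJ0)
  have f4 : (⌊e * (J : ℝ)⌋₊ : ℝ) ≤ e * J := Nat.floor_le (by positivity)
  have f5 : x * (J : ℝ) - 1 < ⌊x * (J : ℝ)⌋₊ := Nat.sub_one_lt_floor _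
  have g1 : e * (J : ℝ) ≤ x / 32 * J := mul_le_mul_of_nonneg_right l2 hJ0
  have g2 : N * (J : ℝ) ≤ (1 + x / 16) * J := by
    refine mul_le_mul_of_nonneg_right ?_ hJ0
    have := hL.le1 {y} u W' r'
    linarith
  have hcast : ∀ a b : ℕ, (a : ℝ) ≤ b → a ≤ b := fun a b h => by exact_mod_cast h
  have n1 : ⌊W * (J : ℝ)⌋₊ + 2 + ⌊(N - W - x) * (J : ℝ)⌋₊ + 1 ≤ ⌊(N - x / 2) * (J : ℝ)⌋₊ :=
    hcast _ _ (by
      push_cast
      linarith only [f1, f2, f3, hxJ])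
  have n2 : ⌊W * (J : ℝ)⌋₊ + 2 ≤ J := hcast _ _ (by
    push_cast
    have h1 : (W + x) * (J : ℝ) ≤ N * J := mul_le_mul_of_nonneg_right (by linarith only [hc]) hJ0
    linarith only [f1, g2, h1, hxJ])
  have hlb := c3.lb (P := ⌊W * (J : ℝ)⌋₊ + 2 + ⌊(N - W - x) * (J : ℝ)⌋₊) n1 (Nat.le_add_right _ _) 0
  obtain ⟨a, c, hcl⟩ := lb_cla ⟨V, zp, zs, _, hlb⟩ (Nat.le_add_right _ _)
  rw [Nat.add_sub_cancel_left] at hcl
  obtain ⟨B, d1, d2, d3⟩ := cla_cut hcl n2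
  have hee : ⌊e * (J : ℝ)⌋₊ + 3 ≤ ⌊x * (J : ℝ)⌋₊ := hcast _ _ (by
    push_cast
    linarith only [f4, f5, g1, hxJ])
  refine ⟨B, fun ω hω => c1 ω (d1 ω hω), ?_, a, c, cla_mono d3 le_rfl (by omega) hee le_rfl⟩
  linarith only [c2, d2]

end Pool.PRV
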