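import Pool.Agent.H21.PRV.Prv
import Pool.Agent.H6.OWN.Bcr

/-!
# Affine closed labels of the third coordinate of a chain, for the numbers of any radius

`hasA2r`, `hasA_ratr`: `hasA2`, `hasA_rat` where the number of the third coordinate over the first two
may be taken at any radius.
-/

set_option autoImplicit false

namespace Pool.PRV

open Finset MvPolynomial
open Pool.Agent.H49.Ent Pool.Agent.H32.Dense Pool.STK Pool.KA Pool.KSAT Pool.K2S Pool.PB Pool.GEN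
open Pool.S6C
open Pool.JVE (DpI)
open Pool.OWN72 (Cl1 ClA HasA)
open Pool.MIC6 (ActF Dp nat_cls dp_cls aff_bcr AfL res_of)

variable {m J : ℕ}

/-- **The third coordinate over the first two**, any radius. -/
theorem hasA2r {S : PCl m} {C₀ : ℝ} (hC₀ : 0 ≤ C₀) (htm : TmC S C₀)
    {L : Finset (Fin m) → Fin m → ℝ → ℝ → ℝ} (hL : LamW S L) {y u v : Fin m} (hyu : y ≠ u)
    (hact : ActF S y) {W N : ℝ} (hW0 : 0 < W) (hcont : ContinuousAt (fun W => L {y} u W 0) W)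
    (hUW : W < L {y} u W 0) (hU1 : L {y} u W 0 < 1)
    (hb : ∃ b : ℝ, 0 ≤ b ∧ b < 1 ∧ L {y} u W 0 - W < L {y} u b b - b)
    (hN : ∀ ε : ℝ, 0 < ε → ∃ W' r' : ℝ, W' < W ∧ N ≤ L {y, u} v W' r' + ε)
    {x : ℝ} (hx : 0 < x) :
    ∃ C : ℝ, Bas S (fun J F A => ∃ B : F.Ω → Prop, Sub B A ∧
      Pe F.p A ≤ C * Pe F.p B ∧ ∃ (a : PtT F → Fin m → ℝ) (c : PtT F → ℝ),
        ClA F B {y, u} v ⌊W * J⌋₊ ⌊x * J⌋₊ ⌊(N - W - x) * J⌋₊ a c) := by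
  classical
  obtain ⟨U, hU⟩ : ∃ U, U = L {y} u W 0 := ⟨_, rfl⟩
  rcases le_or_gt (N - W) x with hc | hc
  · exact hasA_triv {y, u} v hc
  rw [← hU] at hUW hU1 hb
  obtain ⟨b, hb0, hb1, hbg⟩ := hb
  obtain ⟨W', r', hW', hNL⟩ := hN (x / 8) (by linarith)
  have hW1 : W < 1 := hUW.trans hU1
  have hN1 : N ≤ 1 + x / 8 := by
    have := hL.le1 {y, u} v W' r'
    linarith
  obtain ⟨gap, hgap⟩ : ∃ gap, gap = L {y} u b b - b - (U - W) := ⟨_, rfl⟩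
  have hgap0 : 0 < gap := by rw [hgap]; linarith
  obtain ⟨x₁, hx₁⟩ : ∃ x₁, x₁ = min (min (x / 8) W) (min (1 - U) (gap / 2)) := ⟨_, rfl⟩
  have hx₁0 : 0 < x₁ := by
    rw [hx₁]
    exact lt_min (lt_min (by linarith) (by linarith)) (lt_min (by linarith) (by linarith))
  have hx₁' : x₁ ≤ x / 8 ∧ x₁ ≤ W ∧ x₁ ≤ 1 - U ∧ x₁ ≤ gap / 2 := by
    have := hx₁.le
    simp only [le_min_iff] at this
    tauto
  obtain ⟨k1, k2, k3, k4⟩ := hx₁'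
  obtain ⟨e₀, he₀, h₀⟩ := aff_bcr hC₀ htm hL (κ := y) (ι := u) (k := v) hyu hact (W' := W')
    (W := W) (r' := r') (x := x₁) (q := N - W - x / 2) hW' hx₁0 k2 (by linarith)
    (by linarith) hcont (by rw [← hU]; exact hUW) (by rw [← hU]; linarith)
  rw [← hU] at h₀
  obtain ⟨e, he⟩ : ∃ e, e = min e₀ (min (gap / 16) ((1 - b) / 8)) := ⟨_, rfl⟩
  have he0 : 0 < e := by rw [he]; exact lt_min he₀ (lt_min (by linarith) (by linarith))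
  have he' : e ≤ e₀ ∧ e ≤ gap / 16 ∧ e ≤ (1 - b) / 8 := by
    have := he.le
    simp only [le_min_iff] at this
    exact this
  obtain ⟨l1, l2, l3⟩ := he'
  obtain ⟨τ₁, hτ₁, J₁, hb₁⟩ := h₀
  obtain ⟨τ₂, hτ₂, J₂, hb₂⟩ := dp_cls hL y u (a₀ := b) (a := b + 3 * e) (e := e) hb0
    (by linarith) (by linarith) he0 le_rfl (by linarith)
  obtain ⟨τ₃, hτ₃, J₃, hb₃⟩ := bas_part (Pool.OWN72.spr_cls htm hact (γ := x / 8) (η := 1 / 2)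
    (by linarith) (by norm_num)) 1280
  obtain ⟨J₄, hJ₄⟩ := exists_nat_ge ((64 : ℝ) / x)
  refine ⟨1280 * (2 * 2 ^ 2), min τ₁ (min τ₂ τ₃), lt_min hτ₁ (lt_min hτ₂ hτ₃), J₁ + J₂ + J₃ + J₄,
    fun J hJ F A hA => ?_⟩
  have hJ0 : (0 : ℝ) ≤ J := Nat.cast_nonneg J
  have j4 : (J₄ : ℝ) ≤ J := by exact_mod_cast (by omega : J₄ ≤ J)
  have hxJ : 64 ≤ x * J := by
    have h1 := hJ₄.trans j4
    rw [div_le_iff₀ hx] at h1
    linarith only [h1]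
  obtain ⟨au, cu, hdp⟩ := hb₂ J (by omega) F A (S.mono ((min_le_right _ _).trans
    (min_le_left _ _)) hA)
  obtain ⟨B₁, b1, b2, V, zp, zs, cf, b3, -⟩ := hb₁ J (by omega) F A (S.mono (min_le_left _ _) hA)
    au cu _ _ (Nat.floor_le_floor (mul_le_mul_of_nonneg_right l1 hJ0))
    (Nat.floor_le_floor (mul_le_mul_of_nonneg_right (by linarith) hJ0)) hdp
  have f1 : (⌊x₁ / 32 * (J : ℝ)⌋₊ : ℝ) ≤ x₁ / 32 * J := Nat.floor_le (by positivity)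
  have f2 : (⌊x / 8 * (J : ℝ)⌋₊ : ℝ) ≤ x / 8 * J := Nat.floor_le (by positivity)
  have f3 : x * (J : ℝ) - 1 < ⌊x * (J : ℝ)⌋₊ := Nat.sub_one_lt_floor _
  have f4 : (N - W - x / 2) * (J : ℝ) - 1 < ⌊(N - W - x / 2) * (J : ℝ)⌋₊ :=
    Nat.sub_one_lt_floor _
  have f5 : (⌊(N - W - x) * (J : ℝ)⌋₊ : ℝ) ≤ (N - W - x) * J :=
    Nat.floor_le (mul_nonneg (by linarith) hJ0)
  have f6 : (⌊W * (J : ℝ)⌋₊ : ℝ) ≤ W * J := Nat.floor_le (by positivity)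
  have g1 : x₁ * (J : ℝ) ≤ x / 8 * J := mul_le_mul_of_nonneg_right k1 hJ0
  have hcast : ∀ a b : ℕ, (a : ℝ) ≤ b → a ≤ b := fun a b h => by exact_mod_cast h
  obtain ⟨E, hE⟩ : ∃ E, E = ⌊x₁ / 32 * (J : ℝ)⌋₊ := ⟨_, rfl⟩
  rw [← hE] at f1 b3
  have hq3 : (2 : ℝ) * (2 ^ (⌊W * (J : ℝ)⌋₊ + 2) / 2 ^ (⌊W * (J : ℝ)⌋₊ +
      ⌊(N - W - x / 2) * (J : ℝ)⌋₊)) = 8 / 2 ^ ⌊(N - W - x / 2) * (J : ℝ)⌋₊ := by
    rw [pow_add, pow_add]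
    field_simp
    norm_num
  have hvel : ∀ ω, B₁ ω → |F.d ω v - (cf (zp (ptr F J ω)) 1 + (cf (zp (ptr F J ω)) 2 * F.d ω y +
      cf (zp (ptr F J ω)) 3 * F.d ω u))| ≤ 8 / 2 ^ ⌊(N - W - x / 2) * (J : ℝ)⌋₊ := by
    intro ω hω
    rw [← hq3]
    exact b3.vel hω
  have hc3 : ∀ ω, B₁ ω → |cf (zp (ptr F J ω)) 3| ≤ 2 ^ E := by
    intro ω hω
    rw [b3.1.cls ω hω]
    exact (b3.2 ω hω).1
  have hE1 : (1 : ℝ) ≤ 2 ^ E := one_le_pow₀ (by norm_num)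
  have hrel : ∀ ω, B₁ ω → |cf (zp (ptr F J ω)) 1 + cf (zp (ptr F J ω)) 2 * F.d ω y| ≤
      2 ^ (E + 4) := by
    intro ω hω
    have h1 := hvel ω hω
    have h2 : |cf (zp (ptr F J ω)) 3 * F.d ω u| ≤ 2 ^ E := by
      rw [abs_mul]
      have := mul_le_mul (hc3 ω hω) (F.dir ω u) (abs_nonneg _) (by positivity)
      linarith only [this]
    have h3 := F.dir ω v
    have h4 : (8 : ℝ) / 2 ^ ⌊(N - W - x / 2) * (J : ℝ)⌋₊ ≤ 8 :=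
      div_le_self (by norm_num) (one_le_pow₀ (by norm_num))
    have h5 := h1.trans h4
    have h6 : (2 : ℝ) ^ (E + 4) = 16 * 2 ^ E := by
      rw [pow_add]
      ring
    rw [h6]
    rw [abs_le] at h2 h3 h5 ⊢
    constructor <;> linarith only [h2.1, h2.2, h3.1, h3.2, h5.1, h5.2, hE1]
  have hB₁0 := Pe_nonneg F.isLaw B₁
  obtain ⟨B₂, c1, c2, c3⟩ := hb₃ J (by omega) F A (S.mono ((min_le_right _ _).trans
    (min_le_right _ _)) hA) B₁ b1 b2 (fun p => cf (zp p) 1) (fun p => cf (zp p) 2)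
    (2 ^ (E + 4)) (by positivity) hrel
  have hx7 : ⌊x / 8 * (J : ℝ)⌋₊ + (E + 5) ≤ ⌊x * (J : ℝ)⌋₊ := hcast _ _ (by
    push_cast
    linarith only [f1, f2, f3, g1, hxJ])
  have hcy : ∀ ω, B₂ ω → |cf (zp (ptr F J ω)) 2| ≤ 2 ^ (⌊x / 8 * (J : ℝ)⌋₊ + (E + 4)) := by
    intro ω hω
    rw [pow_add (2 : ℝ) ⌊x / 8 * (J : ℝ)⌋₊]
    exact c3 ω hω
  have hct : ∀ ω, B₂ ω → |cf (zp (ptr F J ω)) 1| ≤ 2 ^ (⌊x / 8 * (J : ℝ)⌋₊ + (E + 5)) := by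
    intro ω hω
    have h1 := hcy ω hω
    have h2 := hrel ω (c1 ω hω)
    have h3 : |cf (zp (ptr F J ω)) 2 * F.d ω y| ≤ 2 ^ (⌊x / 8 * (J : ℝ)⌋₊ + (E + 4)) := by
      rw [abs_mul]
      have := mul_le_mul h1 (F.dir ω y) (abs_nonneg _) (by positivity)
      linarith only [this]
    have h4 : (2 : ℝ) ^ (E + 4) ≤ 2 ^ (⌊x / 8 * (J : ℝ)⌋₊ + (E + 4)) :=
      pow_le_pow_right₀ (by norm_num) (by omega)
    have h5 : (2 : ℝ) ^ (⌊x / 8 * (J : ℝ)⌋₊ + (E + 5)) =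
        2 ^ (⌊x / 8 * (J : ℝ)⌋₊ + (E + 4)) + 2 ^ (⌊x / 8 * (J : ℝ)⌋₊ + (E + 4)) := by
      rw [show ⌊x / 8 * (J : ℝ)⌋₊ + (E + 5) = ⌊x / 8 * (J : ℝ)⌋₊ + (E + 4) + 1 by ring, pow_succ]
      ring
    rw [h5]
    rw [abs_le] at h2 h3 ⊢
    constructor <;> linarith only [h2.1, h2.2, h3.1, h3.2, h4]
  have hcla : ClA F B₂ {y, u} v (⌊W * (J : ℝ)⌋₊ + 2) ⌊x * J⌋₊ ⌊(N - W - x) * J⌋₊
      (fun p k => if k = y then cf (zp p) 2 else cf (zp p) 3) (fun p => cf (zp p) 1) := by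
    have hcl : ∀ i : Fin 4, Cl1 F B₂ (⌊W * (J : ℝ)⌋₊ + 2) (fun p => cf (zp p) i) := fun i =>
      ⟨fun s => cf (zs s) i, fun ω hω => by
        show cf (zp (ptr F J ω)) i = _
        rw [b3.1.cls ω (c1 ω hω)]⟩
    refine ⟨fun ω hω => ⟨fun k _ => ?_, ?_, ?_⟩, fun k _ => ?_, hcl 1⟩
    · by_cases hk : k = y
      · simp only [if_pos hk]
        exact (hcy ω hω).trans (pow_le_pow_right₀ (by norm_num) (by omega))
      · simp only [if_neg hk]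
        exact (hc3 ω (c1 ω hω)).trans (pow_le_pow_right₀ (by norm_num) (by omega))
    · exact (hct ω hω).trans (pow_le_pow_right₀ (by norm_num) hx7)
    · rw [Finset.sum_pair hyu]
      simp only [if_true, if_neg hyu.symm]
      have h1 := hvel ω (c1 ω hω)
      rw [← sub_sub] at h1
      refine h1.trans ?_
      have h2 : ⌊(N - W - x) * (J : ℝ)⌋₊ + 3 ≤ ⌊(N - W - x / 2) * (J : ℝ)⌋₊ := hcast _ _ (by
        push_cast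
        linarith only [f4, f5, hxJ])
      rw [div_le_div_iff₀ (by positivity) (by positivity), one_mul]
      have h3 : (8 : ℝ) * 2 ^ ⌊(N - W - x) * (J : ℝ)⌋₊ = 2 ^ (⌊(N - W - x) * (J : ℝ)⌋₊ + 3) := by
        rw [pow_add]
        norm_num
        ring
      rw [h3]
      exact pow_le_pow_right₀ (by norm_num) h2
    · by_cases hk : k = y
      · simp only [if_pos hk]
        exact hcl 2
      · simp only [if_neg hk]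
        exact hcl 3
  have hW2 : ⌊W * (J : ℝ)⌋₊ + 2 ≤ J := hcast _ _ (by
    push_cast
    have h1 : N * (J : ℝ) ≤ (1 + x / 8) * J := mul_le_mul_of_nonneg_right hN1 hJ0
    have h2 : (x + W) * (J : ℝ) ≤ N * J := mul_le_mul_of_nonneg_right (by linarith only [hc]) hJ0
    linarith only [f6, h1, h2, hxJ])
  obtain ⟨B, d1, d2, d3⟩ := cla_cut hcla hW2
  refine ⟨B, fun ω hω => b1 ω (c1 ω (d1 ω hω)), ?_, _, _, d3⟩
  linarith only [b2, c2, d2]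

/-- **All labels at the rational windows**, in one subclass. -/
theorem hasA_ratr {S : PCl m} (hS : S.Ne) {C₀ : ℝ} (hC₀ : 0 ≤ C₀) (htm : TmC S C₀)
    {L : Finset (Fin m) → Fin m → ℝ → ℝ → ℝ} (hL : LamW S L) :
    ∃ S' : PCl m, S'.Ne ∧
      (∀ (τ : ℝ) (J : ℕ) (F : Fam m J) (A : F.Ω → Prop), S'.St τ J F A → S.St τ J F A) ∧
      (∀ (y u : Fin m) (W : ℚ), ActF S y → 0 < (W : ℝ) → (W : ℝ) < 1 →
        (∀ ε : ℝ, 0 < ε → ∃ W' : ℝ, 0 ≤ W' ∧ W' < W ∧ L {y} u W 0 ≤ L {y} u W' 0 + ε) →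
        HasA S' {y} u W (L {y} u W 0)) ∧
      ∀ (y u v : Fin m) (W : ℚ) (N : ℝ), ActF S y → y ≠ u → 0 < (W : ℝ) →
        ContinuousAt (fun W => L {y} u W 0) W → (W : ℝ) < L {y} u W 0 → L {y} u W 0 < 1 →
        (∃ b : ℝ, 0 ≤ b ∧ b < 1 ∧ L {y} u W 0 - W < L {y} u b b - b) →
        (∀ ε : ℝ, 0 < ε → ∃ W' r' : ℝ, W' < W ∧ N ≤ L {y, u} v W' r' + ε) →
        HasA S' {y, u} v W N := by
  classical
  obtain ⟨S₁, a1, a2, a3⟩ := hasA_cnt hS (ι := Fin m × Fin m × ℚ)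
    (fun i => ActF S i.1 ∧ 0 < (i.2.2 : ℝ) ∧ (i.2.2 : ℝ) < 1 ∧ ∀ ε : ℝ, 0 < ε → ∃ W' : ℝ,
      0 ≤ W' ∧ W' < i.2.2 ∧ L {i.1} i.2.1 i.2.2 0 ≤ L {i.1} i.2.1 W' 0 + ε)
    (fun i => {i.1}) (fun i => i.2.1) (fun i => i.2.2) (fun i => L {i.1} i.2.1 i.2.2 0)
    (fun i hi => hi.2.2.1.le)
    (fun i hi x hx => hasA1 hC₀ htm hL hi.1 hi.2.1 hi.2.2.1 hi.2.2.2 hx)
  have hL₁ := hL.sub a2
  have htm₁ : TmC S₁ C₀ := fun τ J F A h1 h2 => htm τ J F A h1 (a2 τ J F A h2)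
  obtain ⟨S₂, b1, b2, b3⟩ := hasA_cnt a1 (ι := Fin m × Fin m × Fin m × ℚ × ℚ)
    (fun i => (ActF S i.1 ∧ 0 < (i.2.2.2.1 : ℝ)) ∧ i.1 ≠ i.2.1 ∧
      ContinuousAt (fun W => L {i.1} i.2.1 W 0) (i.2.2.2.1 : ℝ) ∧
      (i.2.2.2.1 : ℝ) < L {i.1} i.2.1 i.2.2.2.1 0 ∧ L {i.1} i.2.1 i.2.2.2.1 0 < 1 ∧
      (∃ b : ℝ, 0 ≤ b ∧ b < 1 ∧
        L {i.1} i.2.1 i.2.2.2.1 0 - i.2.2.2.1 < L {i.1} i.2.1 b b - b) ∧
      (∀ ε : ℝ, 0 < ε → ∃ W' r' : ℝ, W' < i.2.2.2.1 ∧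
        (i.2.2.2.2 : ℝ) ≤ L {i.1, i.2.1} i.2.2.1 W' r' + ε))
    (fun i => {i.1, i.2.1}) (fun i => i.2.2.1) (fun i => i.2.2.2.1) (fun i => i.2.2.2.2)
    (fun i hi => (hi.2.2.2.1.trans hi.2.2.2.2.1).le)
    (fun i hi x hx => hasA2r hC₀ htm₁ hL₁ hi.2.1
      (fun g hg => by
        obtain ⟨c, h1, h2⟩ := hi.1.1 g hg
        exact ⟨c, h1, Bas.sub a2 h2⟩) hi.1.2 hi.2.2.1 hi.2.2.2.1 hi.2.2.2.2.1 hi.2.2.2.2.2.1
        hi.2.2.2.2.2.2 hx)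
  refine ⟨S₂, b1, fun τ J F A h => a2 τ J F A (b2 τ J F A h), fun y u W h1 h2 h3 h4 =>
    (a3 (y, u, W) ⟨h1, h2, h3, h4⟩).subc b2, fun y u v W N h1 h2 h0 h3 h4 h5 h6 h7 => ?_⟩
  refine hasA_lim (fun N' hN' => b3 (y, u, v, W, N')
    ⟨⟨h1, h0⟩, h2, h3, h4, h5, h6, fun ε hε => ?_⟩)
    (h4.trans h5).le
  obtain ⟨W', r', k1, k4⟩ := h7 ε hε
  exact ⟨W', r', k1, hN'.le.trans k4⟩

end Pool.PRV
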