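import Pool.Agent.H21.PRV.Par
import Pool.Agent.H21.PRV.Ful
import Pool.Agent.H21.PRV.Prv2

/-!
# All affine closed labels at countably many windows, in one subclass

`par1_ex`, `par2_ex`, `par3_ex`: affine closed labels of the coordinate `k` with slopes up to
`2 ^ (s J)`, over one, two, three coordinates, from the numbers of `exC S k s`. `hasA_dns`: all of
them at the windows of a countable set, in one subclass.
-/

set_option autoImplicit false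

namespace Pool.PRV

open Finset MvPolynomial
open Pool.Agent.H49.Ent Pool.Agent.H32.Dense Pool.STK Pool.KA Pool.KSAT Pool.K2S Pool.PB Pool.GEN
open Pool.S6C
open Pool.JVE (DpI)
open Pool.OWN72 (Cl1 ClA HasA HasB RepP)
open Pool.MIC6 (ActF)
open Pool.LA91 (Ful FulC)
open Pool.EXTC hiding HasB

variable {m J : ℕ}

theorem upI_one (a : Fin m) : upI {a} = {a.castSucc} := Finset.map_singleton _ _

theorem upI_two (a b : Fin m) : upI {a, b} = {a.castSucc, b.castSucc} := by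
  unfold upI
  rw [Finset.map_insert, Finset.map_singleton]
  rfl

theorem upI_three (a b c : Fin m) : upI {a, b, c} = {a.castSucc, b.castSucc, c.castSucc} := by
  unfold upI
  rw [Finset.map_insert, Finset.map_insert, Finset.map_singleton]
  rfl

/-- **Over one coordinate**, slopes up to `2 ^ (s J)`. -/
theorem par1_ex {S : PCl m} {C₀ : ℝ} (hC₀ : 0 ≤ C₀) (htm : TmC S C₀) {k : Fin m} {s : ℝ}
    (hs : 0 ≤ s) {LE : Finset (Fin (m + 1)) → Fin (m + 1) → ℝ → ℝ → ℝ}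
    (hLE : LamW (exC S k s) LE) {y : Fin m} (hact : ActF S y) {W N : ℝ} (hW0 : 0 < W)
    (hW1 : W < 1) (hN : DsH LE y.castSucc (Fin.last m) W N) : ParB S {y} k W (N - s) s := by
  refine par_ex hs ?_
  rw [upI_one]
  exact parB_of fun x hx => par1 hC₀ (tmC_ex htm) hLE (actF_ex hact) hW0 hW1 hN hx

/-- **Over two coordinates**, slopes up to `2 ^ (s J)`. -/
theorem par2_ex {S : PCl m} (hS : S.Ne) {C₀ : ℝ} (hC₀ : 0 ≤ C₀) (htm : TmC S C₀)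
    {L : Finset (Fin m) → Fin m → ℝ → ℝ → ℝ} (hL : LamW S L) {k : Fin m} {s : ℝ}
    (hs : 0 ≤ s) {LE : Finset (Fin (m + 1)) → Fin (m + 1) → ℝ → ℝ → ℝ}
    (hLE : LamW (exC S k s) LE) {y u : Fin m} (hyu : y ≠ u) (hact : ActF S y) {W N : ℝ}
    (hW0 : 0 < W) (hcont : ContinuousAt (fun W => L {y} u W 0) W)
    (hUW : W < L {y} u W 0) (hU1 : L {y} u W 0 < 1)
    (hb : ∃ b : ℝ, 0 ≤ b ∧ b < 1 ∧ L {y} u W 0 - W < L {y} u b b - b)
    (hN : ∀ ε : ℝ, 0 < ε → ∃ W' r' : ℝ, W' < W ∧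
      N ≤ LE (upI {y, u}) (Fin.last m) W' r' + ε) : ParB S {y, u} k W (N - s) s := by
  have h0 := lam_ex hS hL hLE {y} u hW0.le 0
  have h1 := cont_ex hS hL hLE (I := {y}) (v := u) hW0 hcont
  rw [upI_one] at h0 h1
  refine par_ex hs ?_
  rw [upI_two] at hN ⊢
  obtain ⟨b, b0, b1, b2⟩ := hb
  have h2 := lam_ex hS hL hLE {y} u b0 b
  rw [upI_one] at h2
  exact parB_of fun x hx => hasA2r hC₀ (tmC_ex htm) hLE
    (fun h => hyu (Fin.castSucc_injective m h)) (actF_ex hact) hW0 h1 (by rw [h0]; exact hUW)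
    (by rw [h0]; exact hU1) ⟨b, b0, b1, by rw [h0, h2]; exact b2⟩ hN hx

/-- **Over three coordinates**, slopes up to `2 ^ (s J)`. -/
theorem par3_ex {S : PCl m} (hS : S.Ne) {C₀ : ℝ} (htm : TmC S C₀)
    {L : Finset (Fin m) → Fin m → ℝ → ℝ → ℝ} (hL : LamW S L) {k : Fin m} {s : ℝ}
    (hs : 0 ≤ s) {LE : Finset (Fin (m + 1)) → Fin (m + 1) → ℝ → ℝ → ℝ}
    (hLE : LamW (exC S k s) LE) {c : ℕ → Fin m}
    (hc : Set.InjOn c (Set.Iio 3)) (hact : ActF S (c 0)) {W N : ℝ} (hW0 : 0 < W)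
    (hcont : ContinuousAt (fun W => L {c 0} (c 1) W 0) W) (hUW : W < L {c 0} (c 1) W 0)
    (hUD : L {c 0} (c 1) W 0 ≤ L {c 0, c 1} (c 2) W 0) (hD1 : L {c 0, c 1} (c 2) W 0 < 1)
    {σ : ℕ → ℝ} (hs1 : σ 1 = L {c 0} (c 1) W 0) (hs2 : σ 2 = L {c 0, c 1} (c 2) W 0)
    (hbase : ∀ t : ℝ, W < t → t < 1 → Ful S {c 0} W t) (hful : FulC S c 1 3 W σ)
    (hA1 : HasA S {c 0} (c 1) W (L {c 0} (c 1) W 0))
    (hA2 : HasA S {c 0, c 1} (c 2) W (L {c 0, c 1} (c 2) W 0)) {P : ℝ} (hP : 0 < P)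
    (hR1 : RepP S (c 0) {c 0} (c 1) W (L {c 0} (c 1) W 0) P)
    (hR2 : RepP S (c 0) {c 0, c 1} (c 2) W (L {c 0, c 1} (c 2) W 0) P)
    (hN : ∀ ε : ℝ, 0 < ε → ∃ W' r' : ℝ, W' < W ∧ r' < 1 ∧
      N ≤ LE (upI {c 0, c 1, c 2}) (Fin.last m) W' r' + ε) :
    ParB S {c 0, c 1, c 2} k W (N - s) s := by
  have h0 := lam_ex hS hL hLE {c 0} (c 1) hW0.le 0
  have h1 := cont_ex hS hL hLE (I := {c 0}) (v := c 1) hW0 hcont
  have h2 := lam_ex hS hL hLE {c 0, c 1} (c 2) hW0.le 0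
  have h3 := hasA_ex (k := k) (s := s) hA1
  have h4 := hasA_ex (k := k) (s := s) hA2
  have h5 := repP_ex (k := k) (s := s) hR1
  have h6 := repP_ex (k := k) (s := s) hR2
  have h7 : ∀ t : ℝ, W < t → t < 1 → Ful (exC S k s) (upI {c 0}) W t := fun t ht ht1 =>
    ful_ex.2 (hbase t ht ht1)
  rw [← h0, upI_one] at h3 h5
  rw [← h2, upI_two] at h4 h6
  rw [upI_one] at h0 h1 h7
  rw [upI_two] at h2
  refine par_ex hs ?_
  rw [upI_three] at hN ⊢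
  exact parB_of fun x hx => hasA3 (c := fun i => (c i).castSucc) (s := σ) (tmC_ex htm) hLE
    (fun a ha b hb hab => hc ha hb (Fin.castSucc_injective m hab)) (actF_ex hact) hW0 h1
    (by rw [h0]; exact hUW) (by rw [h0, h2]; exact hUD) (by rw [h2]; exact hD1)
    (by rw [hs1]; exact h0.symm) (by rw [hs2]; exact h2.symm) h7 (fulC_ex.2 hful) h3 h4 hP h5 h6
    hN hx

/-- **All affine closed labels** at the windows of a countable set, in one subclass: over one, two,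
three coordinates, and with slopes up to `2 ^ (s i J)` from the numbers of `exC S (k i) (s i)`. -/
theorem hasA_dns {S : PCl m} (hS : S.Ne) {C₀ : ℝ} (hC₀ : 0 ≤ C₀) (htm : TmC S C₀)
    {L : Finset (Fin m) → Fin m → ℝ → ℝ → ℝ} (hL : LamW S L) {Wd : Set ℝ} (hWd : Wd.Countable)
    {ι : Type} [Countable ι] (k : ι → Fin m) (s : ι → ℝ) (hs : ∀ i, 0 ≤ s i)
    (LE : ι → Finset (Fin (m + 1)) → Fin (m + 1) → ℝ → ℝ → ℝ)
    (hLE : ∀ i, LamW (exC S (k i) (s i)) (LE i)) :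
    ∃ S' : PCl m, S'.Ne ∧
      (∀ (τ : ℝ) (J : ℕ) (F : Fam m J) (A : F.Ω → Prop), S'.St τ J F A → S.St τ J F A) ∧
      (∀ (I : Finset (Fin m)) (v : Fin m) (W N : ℝ), W ∈ Wd → W ≤ 1 →
        ParB S I v W N 0 → HasA S' I v W N) ∧
      (∀ (y u : Fin m) (W N : ℝ), W ∈ Wd → ActF S y → 0 < W → W < 1 → DsH L y u W N →
        HasA S' {y} u W N) ∧
      (∀ (y u v : Fin m) (W N : ℝ), W ∈ Wd → ActF S y → y ≠ u → 0 < W →
        ContinuousAt (fun W => L {y} u W 0) W → W < L {y} u W 0 → L {y} u W 0 < 1 →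
        (∃ b : ℝ, 0 ≤ b ∧ b < 1 ∧ L {y} u W 0 - W < L {y} u b b - b) →
        (∀ ε : ℝ, 0 < ε → ∃ W' r' : ℝ, W' < W ∧ N ≤ L {y, u} v W' r' + ε) →
        HasA S' {y, u} v W N) ∧
      (∀ (c : ℕ → Fin m) (v : Fin m) (W N : ℝ) (σ : ℕ → ℝ) (P : ℝ), W ∈ Wd →
        Set.InjOn c (Set.Iio 3) → ActF S (c 0) → 0 < W →
        ContinuousAt (fun W => L {c 0} (c 1) W 0) W → W < L {c 0} (c 1) W 0 →
        L {c 0} (c 1) W 0 ≤ L {c 0, c 1} (c 2) W 0 → L {c 0, c 1} (c 2) W 0 < 1 →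
        σ 1 = L {c 0} (c 1) W 0 → σ 2 = L {c 0, c 1} (c 2) W 0 →
        (∀ t : ℝ, W < t → t < 1 → Ful S {c 0} W t) → FulC S c 1 3 W σ →
        HasA S {c 0} (c 1) W (L {c 0} (c 1) W 0) →
        HasA S {c 0, c 1} (c 2) W (L {c 0, c 1} (c 2) W 0) → 0 < P →
        RepP S (c 0) {c 0} (c 1) W (L {c 0} (c 1) W 0) P →
        RepP S (c 0) {c 0, c 1} (c 2) W (L {c 0, c 1} (c 2) W 0) P →
        (∀ ε : ℝ, 0 < ε → ∃ W' r' : ℝ, W' < W ∧ r' < 1 ∧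
          N ≤ L {c 0, c 1, c 2} v W' r' + ε) → HasA S' {c 0, c 1, c 2} v W N) ∧
      (∀ (i : ι) (y : Fin m) (W N : ℝ), W ∈ Wd → ActF S y → 0 < W → W < 1 →
        DsH (LE i) y.castSucc (Fin.last m) W N → HasB S' {y} (k i) W (N - s i) (s i)) ∧
      (∀ (i : ι) (y : Fin m) (W N : ℝ), W ∈ Wd → ActF S y → 0 < W → W < 1 →
        (∀ t : ℝ, W < t → t < 1 → Ful S {y} W t) →
        (∀ ε : ℝ, 0 < ε → ∃ W' r' : ℝ, W' < W ∧
          N ≤ LE i (upI {y}) (Fin.last m) W' r' + ε) →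
        HasB S' {y} (k i) W (N - s i) (s i)) ∧
      (∀ (i : ι) (y u : Fin m) (W N : ℝ), W ∈ Wd → ActF S y → y ≠ u → 0 < W →
        ContinuousAt (fun W => L {y} u W 0) W → W < L {y} u W 0 → L {y} u W 0 < 1 →
        (∃ b : ℝ, 0 ≤ b ∧ b < 1 ∧ L {y} u W 0 - W < L {y} u b b - b) →
        (∀ ε : ℝ, 0 < ε → ∃ W' r' : ℝ, W' < W ∧
          N ≤ LE i (upI {y, u}) (Fin.last m) W' r' + ε) →
        HasB S' {y, u} (k i) W (N - s i) (s i)) ∧
      (∀ (i : ι) (c : ℕ → Fin m) (W N : ℝ) (σ : ℕ → ℝ) (P : ℝ), W ∈ Wd →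
        Set.InjOn c (Set.Iio 3) → ActF S (c 0) → 0 < W →
        ContinuousAt (fun W => L {c 0} (c 1) W 0) W → W < L {c 0} (c 1) W 0 →
        L {c 0} (c 1) W 0 ≤ L {c 0, c 1} (c 2) W 0 → L {c 0, c 1} (c 2) W 0 < 1 →
        σ 1 = L {c 0} (c 1) W 0 → σ 2 = L {c 0, c 1} (c 2) W 0 →
        (∀ t : ℝ, W < t → t < 1 → Ful S {c 0} W t) → FulC S c 1 3 W σ →
        HasA S {c 0} (c 1) W (L {c 0} (c 1) W 0) →
        HasA S {c 0, c 1} (c 2) W (L {c 0, c 1} (c 2) W 0) → 0 < P →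
        RepP S (c 0) {c 0} (c 1) W (L {c 0} (c 1) W 0) P →
        RepP S (c 0) {c 0, c 1} (c 2) W (L {c 0, c 1} (c 2) W 0) P →
        (∀ ε : ℝ, 0 < ε → ∃ W' r' : ℝ, W' < W ∧ r' < 1 ∧
          N ≤ LE i (upI {c 0, c 1, c 2}) (Fin.last m) W' r' + ε) →
        HasB S' {c 0, c 1, c 2} (k i) W (N - s i) (s i)) := by
  classical
  obtain ⟨S', a1, a2, a3⟩ := all_lab hS hWd (Ed := insert 0 (Set.range s))
    ((Set.countable_range s).insert 0)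
  have h0 : (0 : ℝ) ∈ insert (0 : ℝ) (Set.range s) := Set.mem_insert _ _
  have hi : ∀ i, s i ∈ insert (0 : ℝ) (Set.range s) := fun i =>
    Set.mem_insert_of_mem _ (Set.mem_range_self i)
  refine ⟨S', a1, a2, fun I v W N hW hW1 h => hasA_of_B (a3 I v W N 0 hW hW1 h0 h),
    ?_, ?_, ?_, ?_, ?_, ?_, ?_⟩
  · intro y u W N hW hact hW0 hW1 hN
    exact hasA_of_B (a3 _ _ _ _ _ hW hW1.le h0 (parB_of fun x hx =>
      par1 hC₀ htm hL hact hW0 hW1 hN hx))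
  · intro y u v W N hW hact hyu hW0 hcont hUW hU1 hb hN
    exact hasA_of_B (a3 _ _ _ _ _ hW (hUW.trans hU1).le h0 (parB_of fun x hx =>
      hasA2r hC₀ htm hL hyu hact hW0 hcont hUW hU1 hb hN hx))
  · intro c v W N σ P hW hc hact hW0 hcont hUW hUD hD1 hs1 hs2 hbase hful hA1 hA2 hP hR1 hR2 hN
    exact hasA_of_B (a3 _ _ _ _ _ hW (by linarith) h0 (parB_of fun x hx =>
      hasA3 htm hL hc hact hW0 hcont hUW hUD hD1 hs1 hs2 hbase hful hA1 hA2 hP hR1 hR2 hN hx))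
  · intro i y W N hW hact hW0 hW1 hN
    exact a3 _ _ _ _ _ hW hW1.le (hi i) (par1_ex hC₀ htm (hs i) (hLE i) hact hW0 hW1 hN)
  · intro i y W N hW hact hW0 hW1 hful hN
    refine a3 _ _ _ _ _ hW hW1.le (hi i) (par1_ex hC₀ htm (hs i) (hLE i) hact hW0 hW1 ?_)
    rw [upI_one] at hN
    refine dsH_ful (ne_exC hS) (tmC_ex htm) (hLE i) hW0 hW1 (fun t ht ht1 => ?_) hN
    rw [← upI_one]
    exact ful_ex.2 (hful t ht ht1)
  · intro i y u W N hW hact hyu hW0 hcont hUW hU1 hb hN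
    exact a3 _ _ _ _ _ hW (hUW.trans hU1).le (hi i)
      (par2_ex hS hC₀ htm hL (hs i) (hLE i) hyu hact hW0 hcont hUW hU1 hb hN)
  · intro i c W N σ P hW hc hact hW0 hcont hUW hUD hD1 hs1 hs2 hbase hful hA1 hA2 hP hR1 hR2 hN
    exact a3 _ _ _ _ _ hW (by linarith) (hi i)
      (par3_ex hS htm hL (hs i) (hLE i) hc hact hW0 hcont hUW hUD hD1 hs1 hs2 hbase hful hA1 hA2
        hP hR1 hR2 hN)

end Pool.PRV
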