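import Pool.Agent.H6.OWN.AffF

/-!
# The gradient of a label along the line, for any radius

`gsl_win`: the gradient of a closed label is bounded along the whole window of the line, on half of
the event, if it is bounded at the points (Remez inequality in the time). `gsl_free`: at the start
of the window.
-/

set_option autoImplicit false

namespace Pool.PRV

open Finset MvPolynomial
open Pool.Agent.H49.Ent Pool.Agent.H32.Dense Pool.STK Pool.KA Pool.KSAT Pool.K2S Pool.PB Pool.GEN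
open Pool.FLF (Fam.sub)
open Pool.MIC6 (gpt gsl)
open Pool.PB.Trl (rt rt_mem t_rt)

variable {n J : ℕ}

/-- **The gradient along the window.** -/
theorem gsl_win (n K : ℕ) : ∃ C : ℝ, 1 ≤ C ∧ ∀ {J : ℕ} (F : Fam n J) (A : F.Ω → Prop)
    (hA : 0 < Pe F.p A) {I : Finset (Fin n)} {k : Fin n} {e r w ρ P : ℕ} {V : Type}
    {z : PtT F → V} {z' : LnT F → V} {G : V → MvPolynomial (Option (Fin n)) ℝ} {θ : ℝ},
    LbOK F I k K e r w ρ P A z z' G → w ≤ J → 0 ≤ θ → (Fam.sub F A hA).Tm θ →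
    C * (θ + 1) ≤ ((J : ℝ) - w) * Real.log 2 →
    ∃ B : F.Ω → Prop, Sub B A ∧ Pe F.p A / 2 ≤ Pe F.p B ∧ ∀ ω, B ω →
      ∀ σ ∈ Set.Icc (0 : ℝ) 1, ∀ o,
        |eval (fun o' => (lc w (slam F w ω) o').eval σ) (pderiv o (G (z' (slam F w ω))))| ≤
          Real.exp (C * (θ + 1)) * 2 ^ e := by
  classical
  obtain ⟨C₁, hC₁, hrem⟩ := Pool.PZ.Zrt.rem_ev (m := n) (2 * K)
  have hn1 : (1 : ℝ) ≤ n + 1 := by linarith [(Nat.cast_nonneg n : (0 : ℝ) ≤ n)]
  have hlog : 0 ≤ Real.log ((n : ℝ) + 1) := Real.log_nonneg hn1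
  refine ⟨C₁ + Real.log (n + 1), by linarith, ?_⟩
  intro J F A hA I k e r w ρ P V z z' G θ h hw hθ hTm hJ
  have hdeg : ∀ s o, (aeval (lc w s) (pderiv o (G (z' s)))).natDegree ≤ K := fun s o =>
    Pool.KBX.natDegree_aeval_le _ _ (natDegree_lc w s)
      ((Pool.Agent.H50.PW.totalDegree_pderiv_le _ _).trans (h.deg _))
  have hbt : ∀ ω, (fun i => (lc w (slam F w ω) i).eval (rt F w ω)) = bt F ω := fun ω => by
    funext o
    exact eval_lc F hw ω o
  have hq : ∀ s (σ : ℝ), (∑ o, (aeval (lc w s) (pderiv o (G (z' s)))) ^ 2).eval σ =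
      ∑ o, (eval (fun o' => (lc w s o').eval σ) (pderiv o (G (z' s)))) ^ 2 := by
    intro s σ
    rw [Polynomial.eval_finsetSum]
    refine Finset.sum_congr rfl fun o _ => ?_
    rw [Polynomial.eval_pow, Pool.KBX.eval_aeval_poly]
  obtain ⟨B, hBA, hPB, hB⟩ := hrem J F A hA w
    (fun s => ∑ o, (aeval (lc w s) (pderiv o (G (z' s)))) ^ 2) ((n + 1) * (2 ^ e) ^ 2) θ hw
    (fun s => Polynomial.natDegree_sum_le_of_forall_le _ _ fun o _ =>
      (Polynomial.natDegree_pow_le).trans (Nat.mul_le_mul_left 2 (hdeg s o)))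
    (by positivity) hθ hTm (by
      refine le_trans ?_ hJ
      refine mul_le_mul_of_nonneg_right ?_ (by linarith)
      linarith) (by
      intro ω hω
      rw [hq, hbt]
      rw [abs_of_nonneg (Finset.sum_nonneg fun _ _ => sq_nonneg _)]
      refine (Finset.sum_le_card_nsmul _ _ ((2 ^ e) ^ 2) fun o _ => ?_).trans (le_of_eq ?_)
      · refine sq_le_sq.2 ?_
        rw [abs_of_nonneg (by positivity : (0 : ℝ) ≤ 2 ^ e)]
        exact h.lip ω hω (bt F ω) (fun o => by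
          rw [sub_self, abs_zero]
          positivity) o
      · rw [Finset.card_univ, Fintype.card_option, Fintype.card_fin, nsmul_eq_mul]
        push_cast
        ring)
  refine ⟨B, hBA, hPB, fun ω hω σ hσ o => ?_⟩
  have h1 := hB ω hω σ hσ
  rw [hq, abs_of_nonneg (Finset.sum_nonneg fun _ _ => sq_nonneg _)] at h1
  have h2 := (Finset.single_le_sum (f := fun o => (eval (fun o' =>
    (lc w (slam F w ω) o').eval σ) (pderiv o (G (z' (slam F w ω))))) ^ 2)
    (fun _ _ => sq_nonneg _) (Finset.mem_univ o)).trans h1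
  have hE : Real.exp ((C₁ + Real.log (n + 1)) * (θ + 1)) =
      Real.exp (C₁ * (θ + 1)) * Real.exp (Real.log (n + 1) * (θ + 1)) := by
    rw [← Real.exp_add]
    congr 1
    ring
  have hE1 : (n : ℝ) + 1 ≤ Real.exp (Real.log (n + 1) * (θ + 1)) := by
    calc (n : ℝ) + 1 = Real.exp (Real.log (n + 1)) := (Real.exp_log (by positivity)).symm
      _ ≤ _ := Real.exp_le_exp.2 (by nlinarith)
  have hE2 : (1 : ℝ) ≤ Real.exp (C₁ * (θ + 1)) := Real.one_le_exp (by positivity)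
  obtain ⟨M, hM⟩ : ∃ M, M = Real.exp (C₁ * (θ + 1)) * ((n : ℝ) + 1) := ⟨_, rfl⟩
  have hM1 : 1 ≤ M := by
    rw [hM]
    calc (1 : ℝ) = 1 * 1 := (one_mul 1).symm
      _ ≤ _ := mul_le_mul hE2 hn1 (by norm_num) (by linarith)
  have h3 : |eval (fun o' => (lc w (slam F w ω) o').eval σ)
      (pderiv o (G (z' (slam F w ω))))| ≤ M * 2 ^ e := by
    refine abs_le_of_sq_le_sq ?_ (by positivity)
    refine h2.trans ?_
    have h4 : Real.exp (C₁ * (θ + 1)) * (((n : ℝ) + 1) * (2 ^ e) ^ 2) = M * (2 ^ e) ^ 2 := by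
      rw [hM]
      ring
    rw [h4, mul_pow]
    refine mul_le_mul_of_nonneg_right ?_ (by positivity)
    nlinarith
  refine h3.trans ?_
  refine mul_le_mul_of_nonneg_right ?_ (by positivity)
  rw [hM, hE]
  exact mul_le_mul_of_nonneg_left hE1 (by positivity)

/-- **The slopes at the start of the window.** -/
theorem gsl_free (n K : ℕ) : ∃ C : ℝ, 1 ≤ C ∧ ∀ {J : ℕ} (F : Fam n J) (A : F.Ω → Prop)
    (hA : 0 < Pe F.p A) {I : Finset (Fin n)} {k : Fin n} {e r w ρ P : ℕ} {V : Type}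
    {z : PtT F → V} {z' : LnT F → V} {G : V → MvPolynomial (Option (Fin n)) ℝ} {θ : ℝ},
    LbOK F I k K e r w ρ P A z z' G → w ≤ J → 0 ≤ θ → (Fam.sub F A hA).Tm θ →
    C * (θ + 1) ≤ ((J : ℝ) - w) * Real.log 2 →
    ∃ B : F.Ω → Prop, Sub B A ∧ Pe F.p A / 2 ≤ Pe F.p B ∧ ∀ ω, B ω → ∀ j,
      |gsl w z' G j (slam F w ω)| ≤ Real.exp (C * (θ + 1)) * 2 ^ e := by
  obtain ⟨C, hC, h⟩ := gsl_win n K
  refine ⟨C, hC, ?_⟩
  intro J F A hA I k e r w ρ P V z z' G θ h1 h2 h3 h4 h5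
  obtain ⟨B, b1, b2, b3⟩ := h F A hA h1 h2 h3 h4 h5
  exact ⟨B, b1, b2, fun ω hω j => b3 ω hω 0 (Set.left_mem_Icc.2 zero_le_one) (some j)⟩

end Pool.PRV
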