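import Pool.Agent.H21.PRV.Tri
import Pool.Agent.H86.EXT.Lab

/-!
# Affine closed labels on parts of the events, and one more coordinate

`ParB`: affine closed labels on parts of constant proportion. `all_lab`: in one subclass all of them,
for countably many windows and slopes, are labels of all events. `par_ex`: the coordinate `k` from the
last coordinate of `exC S k s`. `hasA_ex`, `repP_ex`: the old coordinates in `exC S k s`.
-/

set_option autoImplicit false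

namespace Pool.PRV

open Finset MvPolynomial
open Pool.Agent.H49.Ent Pool.Agent.H32.Dense Pool.STK Pool.KA Pool.KSAT Pool.K2S Pool.PB Pool.GEN
open Pool.S6C
open Pool.JVE (DpI)
open Pool.OWN72 (Cl1 ClA HasA HasB RepP)
open Pool.MIC6 (ActF)
open Pool.LA91 (Ful FulC)
open Pool.EXTC hiding HasB

variable {m J : ℕ}

/-- **Affine closed labels on parts of the events.** -/
def ParB (S : PCl m) (I : Finset (Fin m)) (v : Fin m) (w N E : ℝ) : Prop :=
  ∀ x : ℝ, 0 < x → ∃ C : ℝ, Bas S (fun J F A => ∃ B : F.Ω → Prop, Sub B A ∧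
    Pe F.p A ≤ C * Pe F.p B ∧ ∃ (a : PtT F → Fin m → ℝ) (c : PtT F → ℝ),
      ClA F B I v ⌊w * J⌋₊ ⌊(E + x) * J⌋₊ ⌊(N - w - x) * J⌋₊ a c)

theorem parB_of {S : PCl m} {I : Finset (Fin m)} {v : Fin m} {w N : ℝ}
    (h : ∀ x : ℝ, 0 < x → ∃ C : ℝ, Bas S (fun J F A => ∃ B : F.Ω → Prop, Sub B A ∧
      Pe F.p A ≤ C * Pe F.p B ∧ ∃ (a : PtT F → Fin m → ℝ) (c : PtT F → ℝ),
        ClA F B I v ⌊w * J⌋₊ ⌊x * J⌋₊ ⌊(N - w - x) * J⌋₊ a c)) : ParB S I v w N 0 := by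
  intro x hx
  simpa only [zero_add] using h x hx

/-- A smaller number, larger slopes. -/
theorem ParB.le {S : PCl m} {I : Finset (Fin m)} {v : Fin m} {w N N' E E' : ℝ}
    (h : ParB S I v w N E) (hw : w ≤ 1) (hN : N' ≤ N) (hE : E ≤ E') : ParB S I v w N' E' := by
  intro x hx
  obtain ⟨C, h1⟩ := h x hx
  refine ⟨C, Bas.mono 0 h1 ?_⟩
  rintro J - F A ⟨B, b1, b2, a, c, b3⟩
  have hJ0 : (0 : ℝ) ≤ J := Nat.cast_nonneg J
  refine ⟨B, b1, b2, a, c, cla_mono b3 le_rfl ?_ ?_ ?_⟩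
  · have : ⌊w * (J : ℝ)⌋₊ ≤ ⌊(1 : ℝ) * J⌋₊ :=
      Nat.floor_le_floor (mul_le_mul_of_nonneg_right hw hJ0)
    rwa [one_mul, Nat.floor_natCast] at this
  · exact Nat.floor_le_floor (mul_le_mul_of_nonneg_right (by linarith) hJ0)
  · exact Nat.floor_le_floor (mul_le_mul_of_nonneg_right (by linarith) hJ0)

theorem ParB.subc {S S' : PCl m} (hs : ∀ (τ : ℝ) (J : ℕ) (F : Fam m J) (A : F.Ω → Prop),
    S'.St τ J F A → S.St τ J F A) {I : Finset (Fin m)} {v : Fin m} {w N E : ℝ}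
    (h : ParB S I v w N E) : ParB S' I v w N E := fun x hx => by
  obtain ⟨C, h1⟩ := h x hx
  exact ⟨C, h1.sub hs⟩

/-- The number may be a limit. -/
theorem hasB_lim {S : PCl m} {I : Finset (Fin m)} {v : Fin m} {w N E : ℝ}
    (h : ∀ N' : ℚ, (N' : ℝ) < N → HasB S I v w N' E) (hw : w ≤ 1) : HasB S I v w N E := by
  intro x hx
  obtain ⟨N', h1, h2⟩ := exists_rat_btwn (by linarith : N - x / 2 < N)
  refine Bas.mono 0 (h N' h2 (x / 2) (by linarith)) ?_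
  rintro J - F A ⟨a, c, h5⟩
  have hJ0 : (0 : ℝ) ≤ J := Nat.cast_nonneg J
  refine ⟨a, c, cla_mono h5 le_rfl ?_ ?_ ?_⟩
  · have : ⌊w * (J : ℝ)⌋₊ ≤ ⌊(1 : ℝ) * J⌋₊ :=
      Nat.floor_le_floor (mul_le_mul_of_nonneg_right hw hJ0)
    rwa [one_mul, Nat.floor_natCast] at this
  · exact Nat.floor_le_floor (mul_le_mul_of_nonneg_right (by linarith) hJ0)
  · exact Nat.floor_le_floor (mul_le_mul_of_nonneg_right (by linarith) hJ0)

theorem hasA_of_B {S : PCl m} {I : Finset (Fin m)} {v : Fin m} {w N : ℝ}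
    (h : HasB S I v w N 0) : HasA S I v w N := by
  intro x hx
  have h1 := h x hx
  simpa only [zero_add] using h1

/-- **Labels in a subclass**, countably many. -/
theorem hasB_cnt {S : PCl m} (hS : S.Ne) (I : ℕ → Finset (Fin m)) (v : ℕ → Fin m) (w N E : ℕ → ℝ)
    (hw : ∀ n, w n ≤ 1) (h : ∀ n, ParB S (I n) (v n) (w n) (N n) (E n)) :
    ∃ S' : PCl m, S'.Ne ∧
      (∀ (τ : ℝ) (J : ℕ) (F : Fam m J) (A : F.Ω → Prop), S'.St τ J F A → S.St τ J F A) ∧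
      ∀ n, HasB S' (I n) (v n) (w n) (N n) (E n) := by
  obtain ⟨S', h1, h2, h3⟩ := Pool.MIC6.her_sub hS
    (fun n J F A => ∃ (a : PtT F → Fin m → ℝ) (c : PtT F → ℝ),
      ClA F A (I n.unpair.1) (v n.unpair.1) ⌊w n.unpair.1 * J⌋₊
        ⌊(E n.unpair.1 + 1 / ((n.unpair.2 : ℝ) + 1)) * J⌋₊
        ⌊(N n.unpair.1 - w n.unpair.1 - 1 / ((n.unpair.2 : ℝ) + 1)) * J⌋₊ a c)
    (fun n J F A B hB ⟨a, c, h⟩ => ⟨a, c, h.sub hB⟩)
    (fun n => h n.unpair.1 _ (by positivity))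
  refine ⟨S', h1, h2, fun n x hx => ?_⟩
  obtain ⟨k, hk⟩ := exists_nat_one_div_lt hx
  have h4 := h3 (Nat.pair n k)
  simp only [Nat.unpair_pair] at h4
  refine Bas.mono 0 h4 ?_
  rintro J - F A ⟨a, c, h5⟩
  have hJ0 : (0 : ℝ) ≤ J := Nat.cast_nonneg J
  refine ⟨a, c, cla_mono h5 le_rfl ?_ ?_ ?_⟩
  · have : ⌊w n * (J : ℝ)⌋₊ ≤ ⌊(1 : ℝ) * J⌋₊ :=
      Nat.floor_le_floor (mul_le_mul_of_nonneg_right (hw n) hJ0)
    rwa [one_mul, Nat.floor_natCast] at this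
  · exact Nat.floor_le_floor (mul_le_mul_of_nonneg_right (by linarith) hJ0)
  · exact Nat.floor_le_floor (mul_le_mul_of_nonneg_right (by linarith) hJ0)

/-- **All labels in one subclass**, for countably many windows and slopes. -/
theorem all_lab {S : PCl m} (hS : S.Ne) {Wd Ed : Set ℝ} (hWd : Wd.Countable) (hEd : Ed.Countable) :
    ∃ S' : PCl m, S'.Ne ∧
      (∀ (τ : ℝ) (J : ℕ) (F : Fam m J) (A : F.Ω → Prop), S'.St τ J F A → S.St τ J F A) ∧
      ∀ (I : Finset (Fin m)) (v : Fin m) (w N E : ℝ), w ∈ Wd → w ≤ 1 → E ∈ Ed →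
        ParB S I v w N E → HasB S' I v w N E := by
  classical
  have : Countable Wd := hWd.to_subtype
  have : Countable Ed := hEd.to_subtype
  by_cases hP : ∃ i : Finset (Fin m) × Fin m × Wd × Ed × ℚ, (i.2.2.1 : ℝ) ≤ 1 ∧
    ParB S i.1 i.2.1 i.2.2.1 (i.2.2.2.2 : ℝ) i.2.2.2.1
  · have : Nonempty {i : Finset (Fin m) × Fin m × Wd × Ed × ℚ // (i.2.2.1 : ℝ) ≤ 1 ∧
        ParB S i.1 i.2.1 i.2.2.1 (i.2.2.2.2 : ℝ) i.2.2.2.1} := ⟨⟨hP.choose, hP.choose_spec⟩⟩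
    obtain ⟨f, hf⟩ := exists_surjective_nat {i : Finset (Fin m) × Fin m × Wd × Ed × ℚ //
      (i.2.2.1 : ℝ) ≤ 1 ∧ ParB S i.1 i.2.1 i.2.2.1 (i.2.2.2.2 : ℝ) i.2.2.2.1}
    obtain ⟨S', h1, h2, h3⟩ := hasB_cnt hS (fun n => (f n).1.1) (fun n => (f n).1.2.1)
      (fun n => (f n).1.2.2.1) (fun n => (f n).1.2.2.2.2) (fun n => (f n).1.2.2.2.1)
      (fun n => (f n).2.1) (fun n => (f n).2.2)
    refine ⟨S', h1, h2, fun I v w N E hw hw1 hE hpar => ?_⟩
    refine hasB_lim (fun N' hN' => ?_) hw1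
    obtain ⟨n, hn⟩ := hf ⟨(I, v, ⟨w, hw⟩, ⟨E, hE⟩, N'), hw1, hpar.le hw1 hN'.le le_rfl⟩
    have h4 := h3 n
    rw [hn] at h4
    exact h4
  · refine ⟨S, hS, fun _ _ _ _ h => h, fun I v w N E hw hw1 hE hpar => ?_⟩
    obtain ⟨N', -, h2⟩ := exists_rat_btwn (by linarith : N - 1 < N)
    exact absurd ⟨(I, v, ⟨w, hw⟩, ⟨E, hE⟩, N'), hw1, hpar.le hw1 h2.le le_rfl⟩ hP

/-! ### One more coordinate -/

/-- **The velocity of the last coordinate** and of the coordinate `k`. -/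
theorem cla_last {F : Fam m J} {k : Fin m} {s : ℕ} {A : F.Ω → Prop} {I : Finset (Fin m)}
    {w e M M' : ℕ} {a : PtT (exF k s F) → Fin (m + 1) → ℝ} {c : PtT (exF k s F) → ℝ}
    (h : ClA (exF k s F) A (upI I) (Fin.last m) w e M a c) (hM : M' + s ≤ M) :
    ClA F A I k w (s + e) M' (fun y i => 2 ^ s * a (upP k s y) i.castSucc)
      (fun y => 2 ^ s * c (upP k s y)) := by
  have hp0 : (0 : ℝ) < 2 ^ s := by positivity
  refine ⟨fun ω hω => ?_, fun i hi => ?_, ?_⟩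
  · obtain ⟨g1, g2, g3⟩ := h.dp ω hω
    have hpe : ptr (exF k s F) J ω = upP k s (ptr F J ω) := ptr_up k _ F ω J
    refine ⟨fun i hi => ?_, ?_, ?_⟩
    · rw [abs_mul, abs_of_pos hp0, ← hpe, pow_add]
      exact mul_le_mul_of_nonneg_left (g1 i.castSucc (mem_upI.2 hi)) hp0.le
    · rw [abs_mul, abs_of_pos hp0, ← hpe, pow_add]
      exact mul_le_mul_of_nonneg_left g2 hp0.le
    · have hsum : ∑ i ∈ upI I, a (ptr (exF k s F) J ω) i * (exF k s F).d ω i =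
          ∑ i ∈ I, a (ptr (exF k s F) J ω) i.castSucc * F.d ω i := by
        unfold upI
        rw [Finset.sum_map]
        refine Finset.sum_congr rfl fun i _ => ?_
        change _ * (exF k s F).d ω i.castSucc = _
        rw [exF_d_cs]
        rfl
      rw [hsum, exF_d_last] at g3
      simp only [← hpe]
      have e3 : F.d ω k - 2 ^ s * c (ptr (exF k s F) J ω) -
          ∑ i ∈ I, 2 ^ s * a (ptr (exF k s F) J ω) i.castSucc * F.d ω i =
          2 ^ s * (F.d ω k / 2 ^ s - c (ptr (exF k s F) J ω) -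
            ∑ i ∈ I, a (ptr (exF k s F) J ω) i.castSucc * F.d ω i) := by
        rw [mul_sub, mul_sub, Finset.mul_sum]
        congr 1
        · rw [mul_div_cancel₀ _ hp0.ne']
        · refine Finset.sum_congr rfl fun i _ => ?_
          ring
      rw [e3, abs_mul, abs_of_pos hp0]
      refine (mul_le_mul_of_nonneg_left g3 hp0.le).trans ?_
      rw [mul_one_div, div_le_div_iff₀ (by positivity) (by positivity), one_mul, ← pow_add]
      exact pow_le_pow_right₀ (by norm_num) (by omega)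
  · obtain ⟨f', hf⟩ := h.ca i.castSucc (mem_upI.2 hi)
    refine ⟨fun l => 2 ^ s * f' (upL k s l), fun ω hω => ?_⟩
    have := hf ω hω
    rw [ptr_up, slam_up] at this
    exact congrArg (fun r => 2 ^ s * r) this
  · obtain ⟨f', hf⟩ := h.cc
    refine ⟨fun l => 2 ^ s * f' (upL k s l), fun ω hω => ?_⟩
    have := hf ω hω
    rw [ptr_up, slam_up] at this
    exact congrArg (fun r => 2 ^ s * r) this

/-- **The coordinate `k` from the last coordinate.** -/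
theorem par_ex {S : PCl m} {k : Fin m} {s : ℝ} (hs : 0 ≤ s) {I : Finset (Fin m)} {w N : ℝ}
    (h : ParB (exC S k s) (upI I) (Fin.last m) w N 0) : ParB S I k w (N - s) s := by
  intro x hx
  by_cases hneg : N - s - w - x < 0
  · refine ⟨1, 1, one_pos, 0, fun J _ F A _ => ⟨A, fun _ h => h, by rw [one_mul],
      fun _ _ => 0, fun _ => 0, ?_⟩⟩
    have h0 : ⌊(N - s - w - x) * (J : ℝ)⌋₊ = 0 :=
      Nat.floor_of_nonpos (mul_nonpos_of_nonpos_of_nonneg hneg.le (Nat.cast_nonneg J))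
    rw [h0]
    exact cla_triv F A I k _ _
  push Not at hneg
  obtain ⟨C, hC⟩ := h (x / 2) (by linarith)
  obtain ⟨J₀, hJ₀⟩ := exists_nat_ge (4 / x)
  refine ⟨C, Bas.mono J₀ (bas_exC.1 hC) ?_⟩
  rintro J hJ F A ⟨B, b1, b2, a, c, b3⟩
  have hJr : 4 ≤ x * J := by
    have : (J₀ : ℝ) ≤ J := by exact_mod_cast hJ
    have h1 := hJ₀.trans this
    rw [div_le_iff₀ hx] at h1
    linarith
  have hJ0 : (0 : ℝ) ≤ J := Nat.cast_nonneg J
  have f2 : (⌊s * (J : ℝ)⌋₊ : ℝ) ≤ s * J := Nat.floor_le (by positivity)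
  have e1 : ⌊s * (J : ℝ)⌋₊ + ⌊(0 + x / 2) * (J : ℝ)⌋₊ ≤ ⌊(s + x) * (J : ℝ)⌋₊ := by
    apply Nat.le_floor
    push_cast
    have f1 : (⌊(0 + x / 2) * (J : ℝ)⌋₊ : ℝ) ≤ (0 + x / 2) * J := Nat.floor_le (by positivity)
    nlinarith
  have e2 : ⌊(N - s - w - x) * (J : ℝ)⌋₊ + ⌊s * (J : ℝ)⌋₊ ≤
      ⌊(N - w - x / 2) * (J : ℝ)⌋₊ := by
    apply Nat.le_floor
    push_cast
    have f1 : (⌊(N - s - w - x) * (J : ℝ)⌋₊ : ℝ) ≤ (N - s - w - x) * J :=
      Nat.floor_le (by positivity)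
    nlinarith
  have h5 := cla_last b3 e2
  refine ⟨B, b1, b2, _, _, ⟨fun ω hω => ?_, h5.ca, h5.cc⟩⟩
  obtain ⟨g1, g2, g3⟩ := h5.dp ω hω
  have hpw : (2 : ℝ) ^ (⌊s * (J : ℝ)⌋₊ + ⌊(0 + x / 2) * (J : ℝ)⌋₊) ≤
      2 ^ ⌊(s + x) * (J : ℝ)⌋₊ := pow_le_pow_right₀ (by norm_num) e1
  exact ⟨fun i hi => (g1 i hi).trans hpw, g2.trans hpw, g3⟩

/-- **The old coordinates.** -/
theorem cla_up {F : Fam m J} (k : Fin m) (s : ℕ) {A : F.Ω → Prop} {I : Finset (Fin m)}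
    {v : Fin m} {w e M : ℕ} {a : PtT F → Fin m → ℝ} {c : PtT F → ℝ}
    (h : ClA F A I v w e M a c) :
    ClA (exF k s F) A (upI I) v.castSucc w e M
      (fun y => (Fin.snoc (a (dnP y)) 0 : Fin (m + 1) → ℝ)) (fun y => c (dnP y)) := by
  have hpe : ∀ ω, dnP (ptr (exF k s F) J ω) = ptr F J ω := fun ω => ptr_dn k s F ω J
  refine ⟨fun ω hω => ?_, fun i hi => ?_, ?_⟩
  · obtain ⟨g1, g2, g3⟩ := h.dp ω hω
    refine ⟨fun i hi => ?_, ?_, ?_⟩
    · obtain ⟨j, hj, rfl⟩ := Finset.mem_map.1 hi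
      show |(Fin.snoc (a (dnP (ptr (exF k s F) J ω))) 0 : Fin (m + 1) → ℝ) j.castSucc| ≤ _
      rw [Fin.snoc_castSucc, hpe]
      exact g1 j hj
    · show |c (dnP (ptr (exF k s F) J ω))| ≤ _
      rw [hpe]
      exact g2
    · have hsum : ∑ i ∈ upI I, (Fin.snoc (a (dnP (ptr (exF k s F) J ω))) 0 :
          Fin (m + 1) → ℝ) i * (exF k s F).d ω i =
          ∑ i ∈ I, a (ptr F J ω) i * F.d ω i := by
        unfold upI
        rw [Finset.sum_map]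
        refine Finset.sum_congr rfl fun i _ => ?_
        change (Fin.snoc (a (dnP (ptr (exF k s F) J ω))) 0 : Fin (m + 1) → ℝ) i.castSucc *
          (exF k s F).d ω i.castSucc = _
        rw [exF_d_cs, Fin.snoc_castSucc, hpe]
      rw [exF_d_cs]
      show |F.d ω v - c (dnP (ptr (exF k s F) J ω)) - ∑ i ∈ upI I,
        (Fin.snoc (a (dnP (ptr (exF k s F) J ω))) 0 : Fin (m + 1) → ℝ) i *
          (exF k s F).d ω i| ≤ _
      rw [hsum, hpe]
      exact g3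
  · obtain ⟨j, hj, rfl⟩ := Finset.mem_map.1 hi
    obtain ⟨f', hf⟩ := h.ca j hj
    refine ⟨fun l => f' (dnL l), fun ω hω => ?_⟩
    show (Fin.snoc (a (dnP (ptr (exF k s F) J ω))) 0 : Fin (m + 1) → ℝ) j.castSucc =
      f' (dnL (slam (exF k s F) w ω))
    rw [Fin.snoc_castSucc, hpe, slam_dn]
    exact hf ω hω
  · obtain ⟨f', hf⟩ := h.cc
    refine ⟨fun l => f' (dnL l), fun ω hω => ?_⟩
    show c (dnP (ptr (exF k s F) J ω)) = f' (dnL (slam (exF k s F) w ω))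
    rw [hpe, slam_dn]
    exact hf ω hω

theorem cla_dn {F : Fam m J} {k : Fin m} {s : ℕ} {A : F.Ω → Prop} {I : Finset (Fin m)}
    {v : Fin m} {w e M : ℕ} {a : PtT (exF k s F) → Fin (m + 1) → ℝ}
    {c : PtT (exF k s F) → ℝ} (h : ClA (exF k s F) A (upI I) v.castSucc w e M a c) :
    ClA F A I v w e M (fun y i => a (upP k s y) i.castSucc) (fun y => c (upP k s y)) := by
  have hpe : ∀ ω, ptr (exF k s F) J ω = upP k s (ptr F J ω) := fun ω => ptr_up k s F ω J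
  refine ⟨fun ω hω => ?_, fun i hi => ?_, ?_⟩
  · obtain ⟨g1, g2, g3⟩ := h.dp ω hω
    refine ⟨fun i hi => ?_, ?_, ?_⟩
    · have := g1 i.castSucc (mem_upI.2 hi)
      rwa [hpe] at this
    · rwa [hpe] at g2
    · have hsum : ∑ i ∈ upI I, a (ptr (exF k s F) J ω) i * (exF k s F).d ω i =
          ∑ i ∈ I, a (upP k s (ptr F J ω)) i.castSucc * F.d ω i := by
        unfold upI
        rw [Finset.sum_map]
        refine Finset.sum_congr rfl fun i _ => ?_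
        change a (ptr (exF k s F) J ω) i.castSucc * (exF k s F).d ω i.castSucc = _
        rw [exF_d_cs, hpe]
      rw [hsum, exF_d_cs, hpe] at g3
      exact g3
  · obtain ⟨f', hf⟩ := h.ca i.castSucc (mem_upI.2 hi)
    refine ⟨fun l => f' (upL k s l), fun ω hω => ?_⟩
    have := hf ω hω
    rw [ptr_up, slam_up] at this
    exact this
  · obtain ⟨f', hf⟩ := h.cc
    refine ⟨fun l => f' (upL k s l), fun ω hω => ?_⟩
    have := hf ω hω
    rw [ptr_up, slam_up] at this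
    exact this

theorem hasA_ex {S : PCl m} {k : Fin m} {s : ℝ} {I : Finset (Fin m)} {v : Fin m} {w N : ℝ}
    (h : HasA S I v w N) : HasA (exC S k s) (upI I) v.castSucc w N := by
  intro x hx
  refine bas_exC.2 (Bas.mono 0 (h x hx) ?_)
  rintro J - F A ⟨a, c, h1⟩
  exact ⟨_, _, cla_up k ⌊s * J⌋₊ h1⟩

theorem hasB_ex {S : PCl m} {k : Fin m} {s : ℝ} {I : Finset (Fin m)} {v : Fin m} {w N E : ℝ}
    (h : HasB S I v w N E) : HasB (exC S k s) (upI I) v.castSucc w N E := by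
  intro x hx
  refine bas_exC.2 (Bas.mono 0 (h x hx) ?_)
  rintro J - F A ⟨a, c, h1⟩
  exact ⟨_, _, cla_up k ⌊s * J⌋₊ h1⟩

theorem repP_ex {S : PCl m} {k : Fin m} {s : ℝ} {y : Fin m} {I : Finset (Fin m)} {v : Fin m}
    {w N P : ℝ} (h : RepP S y I v w N P) :
    RepP (exC S k s) y.castSucc (upI I) v.castSucc w N P := by
  obtain ⟨x₀, hx₀, h⟩ := h
  refine ⟨x₀, hx₀, fun x hx hxx η hη => bas_exC.2 (Bas.mono 0 (h x hx hxx η hη) ?_)⟩
  intro J _ F A h1 a c h2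
  have hpe : ∀ ω, ptr (exF k ⌊s * J⌋₊ F) J ω = upP k ⌊s * J⌋₊ (ptr F J ω) := fun ω =>
    ptr_up k _ F ω J
  obtain ⟨B, b1, b2, p, q, b3⟩ := h1 _ _ (cla_dn h2)
  refine ⟨B, b1, b2, fun y => p (dnP y), fun y => q (dnP y), fun ω hω => ?_⟩
  have hsum : ∑ i ∈ upI I, a (ptr (exF k ⌊s * J⌋₊ F) J ω) i * (exF k ⌊s * J⌋₊ F).d ω i =
      ∑ i ∈ I, a (upP k ⌊s * J⌋₊ (ptr F J ω)) i.castSucc * F.d ω i := by
    unfold upI
    rw [Finset.sum_map]
    refine Finset.sum_congr rfl fun i _ => ?_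
    change a (ptr (exF k ⌊s * J⌋₊ F) J ω) i.castSucc * (exF k ⌊s * J⌋₊ F).d ω i.castSucc = _
    rw [exF_d_cs, hpe]
  have h3 := b3 ω hω
  show |(exF k ⌊s * J⌋₊ F).d ω v.castSucc - c (ptr (exF k ⌊s * J⌋₊ F) J ω) -
    ∑ i ∈ upI I, a (ptr (exF k ⌊s * J⌋₊ F) J ω) i * (exF k ⌊s * J⌋₊ F).d ω i -
    p (dnP (ptr (exF k ⌊s * J⌋₊ F) J ω)) - q (dnP (ptr (exF k ⌊s * J⌋₊ F) J ω)) *
      (exF k ⌊s * J⌋₊ F).d ω y.castSucc| ≤ _
  rw [hsum, ptr_dn, exF_d_cs, exF_d_cs, hpe]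
  exact h3

/-- The numbers of one coordinate over another one are continuous in the extension. -/
theorem cont_ex {S : PCl m} {k : Fin m} {s : ℝ} (hne : S.Ne)
    {L : Finset (Fin m) → Fin m → ℝ → ℝ → ℝ}
    {LE : Finset (Fin (m + 1)) → Fin (m + 1) → ℝ → ℝ → ℝ} (hL : LamW S L)
    (hLE : LamW (exC S k s) LE) {I : Finset (Fin m)} {v : Fin m} {W r : ℝ} (hW : 0 < W)
    (h : ContinuousAt (fun w => L I v w r) W) :
    ContinuousAt (fun w => LE (upI I) v.castSucc w r) W := by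
  refine h.congr ?_
  filter_upwards [lt_mem_nhds hW] with w hw
  exact (lam_ex hne hL hLE I v hw.le r).symm

end Pool.PRV
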