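import Pool.Agent.H21.PRV.Cla
import Pool.Agent.H6.OWN.Bmc

/-!
# Affine closed labels of the second and third coordinates of a chain

`hasA1`: the second coordinate over the first one, from the closed slopes. `hasA2`: the third
coordinate over the first two, from the affine labels over two coordinates. `hasA_rat`: all
windows of a sequence at once, in a subclass.
-/

set_option autoImplicit false

namespace Pool.PRV

open Finset MvPolynomial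
open Pool.Agent.H49.Ent Pool.Agent.H32.Dense Pool.STK Pool.KA Pool.KSAT Pool.K2S Pool.PB Pool.GEN
open Pool.S6C
open Pool.JVE (DpI)
open Pool.OWN72 (Cl1 ClA HasA)
open Pool.MIC6 (ActF Dp nat_cls dp_cls aff_bcn AfL res_of)

variable {m J : ℕ}

/-- Base statements hold on parts of the events. -/
theorem bas_part {S : PCl m} {Φ : Stat m} (h : Bas S Φ) (C : ℝ) :
    Bas S (fun J F A => ∀ B : F.Ω → Prop, Sub B A → Pe F.p A ≤ C * Pe F.p B → Φ J F B) := by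
  obtain ⟨τ, hτ, J₁, h⟩ := h
  obtain ⟨J₂, hJ₂⟩ := exists_nat_ge (Real.log (max C 1) / (τ / 2))
  refine ⟨τ / 2, by linarith, J₁ + J₂, fun J hJ F A hA B hB hP => ?_⟩
  have j2 : (J₂ : ℝ) ≤ J := by exact_mod_cast (by omega : J₂ ≤ J)
  have hlog : Real.log (max C 1) ≤ τ / 2 * J := by
    have h1 := hJ₂.trans j2
    rw [div_le_iff₀ (by linarith)] at h1
    linarith only [h1]
  have hC : (0 : ℝ) < max C 1 := lt_of_lt_of_le one_pos (le_max_right _ _)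
  have hB0 := Pe_nonneg F.isLaw B
  have h1 := res_of (by linarith : (0 : ℝ) ≤ τ / 2) hA hB hC hlog
    (hP.trans (mul_le_mul_of_nonneg_right (le_max_left _ _) hB0))
  have e1 : 2 * (τ / 2) = τ := by ring
  rw [e1] at h1
  exact h J (by omega) F B h1

/-- The trivial case. -/
theorem hasA_triv {S : PCl m} (I : Finset (Fin m)) (v : Fin m) {W N x : ℝ} (h : N - W ≤ x) :
    ∃ C : ℝ, Bas S (fun J F A => ∃ B : F.Ω → Prop, Sub B A ∧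
      Pe F.p A ≤ C * Pe F.p B ∧ ∃ (a : PtT F → Fin m → ℝ) (c : PtT F → ℝ),
        ClA F B I v ⌊W * J⌋₊ ⌊x * J⌋₊ ⌊(N - W - x) * J⌋₊ a c) := by
  refine ⟨1, 1, one_pos, 0, fun J _ F A _ => ⟨A, fun _ h => h, by rw [one_mul],
    fun _ _ => 0, fun _ => 0, ?_⟩⟩
  have h0 : ⌊(N - W - x) * (J : ℝ)⌋₊ = 0 :=
    Nat.floor_of_nonpos (mul_nonpos_of_nonpos_of_nonneg (by linarith) (Nat.cast_nonneg J))
  rw [h0]
  exact cla_triv F A I v _ _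

/-- **The second coordinate over the first one.** -/
theorem hasA1 {S : PCl m} {C₀ : ℝ} (hC₀ : 0 ≤ C₀) (htm : TmC S C₀)
    {L : Finset (Fin m) → Fin m → ℝ → ℝ → ℝ} (hL : LamW S L) {y u : Fin m} (hact : ActF S y)
    {W : ℝ} (hW0 : 0 < W) (hW1 : W < 1)
    (hlc : ∀ ε : ℝ, 0 < ε → ∃ W' : ℝ, 0 ≤ W' ∧ W' < W ∧ L {y} u W 0 ≤ L {y} u W' 0 + ε)
    {x : ℝ} (hx : 0 < x) :
    ∃ C : ℝ, Bas S (fun J F A => ∃ B : F.Ω → Prop, Sub B A ∧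
      Pe F.p A ≤ C * Pe F.p B ∧ ∃ (a : PtT F → Fin m → ℝ) (c : PtT F → ℝ),
        ClA F B {y} u ⌊W * J⌋₊ ⌊x * J⌋₊ ⌊(L {y} u W 0 - W - x) * J⌋₊ a c) := by
  obtain ⟨U, hU⟩ : ∃ U, U = L {y} u W 0 := ⟨_, rfl⟩
  rw [← hU] at hlc ⊢
  rcases le_or_gt (U - W) x with hc | hc
  · exact hasA_triv {y} u hc
  obtain ⟨W', hW'0, hW', hUU⟩ := hlc (x / 16) (by linarith)
  obtain ⟨s, hs⟩ : ∃ s, s = x / 16 := ⟨_, rfl⟩
  have hs0 : 0 < s := by rw [hs]; linarith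
  rw [← hs] at hUU
  obtain ⟨U', hU'⟩ : ∃ U', U' = L {y} u W' 0 := ⟨_, rfl⟩
  rw [← hU'] at hUU
  have hU'1 : U' ≤ 1 := by rw [hU']; exact hL.le1 _ _ _ _
  have hU1 : U ≤ 1 := by rw [hU]; exact hL.le1 _ _ _ _
  have hxs : x = 16 * s := by rw [hs]; ring
  obtain ⟨τ₁, hτ₁, J₁, hb₁⟩ := nat_cls hC₀ htm hL (y := y) (v := u) hact hW' hW0 hs0
    (by rw [← hU']; linarith)
  rw [← hU'] at hb₁
  obtain ⟨e, he⟩ : ∃ e, e = min s ((W - W') / 8) := ⟨_, rfl⟩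
  have he0 : 0 < e := by rw [he]; exact lt_min hs0 (by linarith)
  have he1 : e ≤ s := by rw [he]; exact min_le_left _ _
  have he2 : 8 * e ≤ W - W' := by
    have : e ≤ (W - W') / 8 := by rw [he]; exact min_le_right _ _
    linarith
  have hUb : U' ≤ L {y} u W' W' := by
    rw [hU']
    exact hL.mono _ _ _ _ _ _ _ (Finset.Subset.refl _) le_rfl hW'0
  obtain ⟨τ₂, hτ₂, J₂, hb₂⟩ := dp_cls hL y u (a₀ := W') (a := W - 4 * e) (e := e) hW'0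
    (by linarith) (by linarith) he0 (by linarith) (by linarith)
  obtain ⟨J₃, hJ₃⟩ := exists_nat_ge ((m + 8 : ℝ) / s)
  refine ⟨4 * Pool.JVE.cI m, min τ₁ τ₂, lt_min hτ₁ hτ₂, J₁ + J₂ + J₃, fun J hJ F A hA => ?_⟩
  have hJ0 : (0 : ℝ) ≤ J := Nat.cast_nonneg J
  have j3 : (J₃ : ℝ) ≤ J := by exact_mod_cast (by omega : J₃ ≤ J)
  have hsJ : (m + 8 : ℝ) ≤ s * J := by
    have h1 := hJ₃.trans j3
    rw [div_le_iff₀ hs0] at h1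
    linarith only [h1]
  obtain ⟨av, cv, hdp⟩ := hb₂ J (by omega) F A (S.mono (min_le_right _ _) hA)
  have hes : ⌊e * (J : ℝ)⌋₊ ≤ ⌊s * J⌋₊ :=
    Nat.floor_le_floor (mul_le_mul_of_nonneg_right he1 hJ0)
  have hM : ⌊(U' - W) * (J : ℝ)⌋₊ ≤ ⌊(L {y} u W' W' - (W - 4 * e) - 4 * e) * J⌋₊ :=
    Nat.floor_le_floor (mul_le_mul_of_nonneg_right (by linarith) hJ0)
  obtain ⟨B₁, b1, b2, j, b3⟩ := hb₁ J (by omega) F A (S.mono (min_le_left _ _) hA) av cv _ _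
    hdp hes hM
  have hnn : 0 ≤ (U' - W - 8 * s) * (J : ℝ) := mul_nonneg (by linarith) hJ0
  have f1 : (⌊W * (J : ℝ)⌋₊ : ℝ) ≤ W * J := Nat.floor_le (by positivity)
  have f2 : (⌊(U' - W - 8 * s) * (J : ℝ)⌋₊ : ℝ) ≤ (U' - W - 8 * s) * J := Nat.floor_le hnn
  have f2' : (U' - W - 8 * s) * (J : ℝ) - 1 < ⌊(U' - W - 8 * s) * (J : ℝ)⌋₊ :=
    Nat.sub_one_lt_floor _
  have f3 : (⌊s * (J : ℝ)⌋₊ : ℝ) ≤ s * J := Nat.floor_le (by positivity)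
  have f4 : (⌊(U - W - x) * (J : ℝ)⌋₊ : ℝ) ≤ (U - W - x) * J :=
    Nat.floor_le (mul_nonneg (by linarith) hJ0)
  have f5 : x * (J : ℝ) - 1 < ⌊x * (J : ℝ)⌋₊ := Nat.sub_one_lt_floor _
  have g1 : U' * (J : ℝ) ≤ 1 * J := mul_le_mul_of_nonneg_right hU'1 hJ0
  have g2 : U * (J : ℝ) ≤ (U' + s) * J := mul_le_mul_of_nonneg_right hUU hJ0
  have g3 : x * (J : ℝ) = 16 * (s * J) := by rw [hxs]; ring
  have hm0 : (0 : ℝ) ≤ m := Nat.cast_nonneg m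
  have hcast : ∀ a b : ℕ, (a : ℝ) ≤ b → a ≤ b := fun a b h => by exact_mod_cast h
  have hMM : ⌊(U' - W - 8 * s) * (J : ℝ)⌋₊ ≤
      ⌊(L {y} u W' W' - (W - 4 * e) - 4 * e) * J⌋₊ :=
    Nat.floor_le_floor (mul_le_mul_of_nonneg_right (by linarith) hJ0)
  have hdp' := (hdp.sub b1).mono hes hMM
  obtain ⟨B, c1, c2, a, c, c3⟩ := cla_grd (F := F) (A := B₁) (I := {y}) (v := u)
    (av := fun p _ => av p) (cv := cv) (th := fun s _ => j s) (W := ⌊W * J⌋₊)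
    (M := ⌊(U' - W - 8 * s) * J⌋₊) (e := ⌊s * J⌋₊) (Q := ⌊(U - W - x) * J⌋₊)
    (hcast _ _ (by
      have : W * (J : ℝ) ≤ 1 * J := mul_le_mul_of_nonneg_right hW1.le hJ0
      linarith only [f1, this]))
    (DpI.of_dp hdp') (fun ω hω k _ => b3 ω hω) (hcast _ _ (by
      push_cast
      linarith only [f1, f2, f3, g1, hsJ, hm0])) (hcast _ _ (by
      push_cast
      linarith only [f4, f2', g2, g3, hsJ, hm0]))
  have hcI := Pool.JVE.cI_pos m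
  refine ⟨B, fun ω hω => b1 ω (c1 ω hω), ?_, a, c, cla_mono c3 le_rfl (hcast _ _ (by
      have : W * (J : ℝ) ≤ 1 * J := mul_le_mul_of_nonneg_right hW1.le hJ0
      linarith only [f1, this])) (hcast _ _ (by
      push_cast
      linarith only [f3, f5, g3, hsJ, hm0])) le_rfl⟩
  linarith only [b2, c2]

/-- **The third coordinate over the first two.** -/
theorem hasA2 {S : PCl m} {C₀ : ℝ} (hC₀ : 0 ≤ C₀) (htm : TmC S C₀)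
    {L : Finset (Fin m) → Fin m → ℝ → ℝ → ℝ} (hL : LamW S L) {y u v : Fin m} (hyu : y ≠ u)
    (hact : ActF S y) {W N : ℝ} (hcont : ContinuousAt (fun W => L {y} u W 0) W)
    (hUW : W < L {y} u W 0) (hU1 : L {y} u W 0 < 1)
    (hb : ∃ b : ℝ, 0 ≤ b ∧ b < 1 ∧ L {y} u W 0 - W < L {y} u b b - b)
    (hN : ∀ ε : ℝ, 0 < ε → ∃ W' r' : ℝ, W' < W ∧ 0 ≤ r' ∧ r' < W ∧ N ≤ L {y, u} v W' r' + ε)
    {x : ℝ} (hx : 0 < x) :
    ∃ C : ℝ, Bas S (fun J F A => ∃ B : F.Ω → Prop, Sub B A ∧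
      Pe F.p A ≤ C * Pe F.p B ∧ ∃ (a : PtT F → Fin m → ℝ) (c : PtT F → ℝ),
        ClA F B {y, u} v ⌊W * J⌋₊ ⌊x * J⌋₊ ⌊(N - W - x) * J⌋₊ a c) := by
  classical
  obtain ⟨U, hU⟩ : ∃ U, U = L {y} u W 0 := ⟨_, rfl⟩
  rcases le_or_gt (N - W) x with hc | hc
  · exact hasA_triv {y, u} v hc
  rw [← hU] at hUW hU1 hb
  obtain ⟨b, hb0, hb1, hbg⟩ := hb
  obtain ⟨W', r', hW', hr0, hr, hNL⟩ := hN (x / 8) (by linarith)
  have hW0 : 0 < W := lt_of_le_of_lt hr0 hr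
  have hW1 : W < 1 := hUW.trans hU1
  have hN1 : N ≤ 1 + x / 8 := by
    have := hL.le1 {y, u} v W' r'
    linarith
  obtain ⟨gap, hgap⟩ : ∃ gap, gap = L {y} u b b - b - (U - W) := ⟨_, rfl⟩
  have hgap0 : 0 < gap := by rw [hgap]; linarith
  obtain ⟨x₁, hx₁⟩ : ∃ x₁, x₁ = min (min (x / 8) (W - r')) (min (1 - U) (gap / 2)) := ⟨_, rfl⟩
  have hx₁0 : 0 < x₁ := by
    rw [hx₁]
    exact lt_min (lt_min (by linarith) (by linarith)) (lt_min (by linarith) (by linarith))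
  have hx₁' : x₁ ≤ x / 8 ∧ x₁ ≤ W - r' ∧ x₁ ≤ 1 - U ∧ x₁ ≤ gap / 2 := by
    have := hx₁.le
    simp only [le_min_iff] at this
    tauto
  obtain ⟨k1, k2, k3, k4⟩ := hx₁'
  obtain ⟨e₀, he₀, h₀⟩ := aff_bcn hC₀ htm hL (κ := y) (ι := u) (k := v) hyu hact (W' := W')
    (W := W) (r' := r') (x := x₁) (q := N - W - x / 2) hW' hr0 hx₁0 (by linarith) (by linarith)
    (by linarith) hcont (by rw [← hU]; exact hUW) (by rw [← hU]; linarith)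
  rw [← hU] at h₀
  obtain ⟨e, he⟩ : ∃ e, e = min e₀ (min (gap / 16) ((1 - b) / 8)) := ⟨_, rfl⟩
  have he0 : 0 < e := by rw [he]; exact lt_min he₀ (lt_min (by linarith) (by linarith))
  have he' : e ≤ e₀ ∧ e ≤ gap / 16 ∧ e ≤ (1 - b) / 8 := by
    have := he.le
    simp only [le_min_iff] at this
    exact this
  obtain ⟨l1, l2, l3⟩ := he'
  obtain ⟨τ₁, hτ₁, J₁, hb₁⟩ := h₀
  obtain ⟨τ₂, hτ₂, J₂, hb₂⟩ := dp_cls hL y u (a₀ := b) (a := b + 3 * e) (e := e) hb0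
    (by linarith) (by linarith) he0 le_rfl (by linarith)
  obtain ⟨τ₃, hτ₃, J₃, hb₃⟩ := bas_part (Pool.OWN72.spr_cls htm hact (γ := x / 8) (η := 1 / 2)
    (by linarith) (by norm_num)) 640
  obtain ⟨J₄, hJ₄⟩ := exists_nat_ge ((64 : ℝ) / x)
  refine ⟨640 * (2 * 2 ^ 2), min τ₁ (min τ₂ τ₃), lt_min hτ₁ (lt_min hτ₂ hτ₃), J₁ + J₂ + J₃ + J₄,
    fun J hJ F A hA => ?_⟩
  have hJ0 : (0 : ℝ) ≤ J := Nat.cast_nonneg J
  have j4 : (J₄ : ℝ) ≤ J := by exact_mod_cast (by omega : J₄ ≤ J)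
  have hxJ : 64 ≤ x * J := by
    have h1 := hJ₄.trans j4
    rw [div_le_iff₀ hx] at h1
    linarith only [h1]
  obtain ⟨au, cu, hdp⟩ := hb₂ J (by omega) F A (S.mono ((min_le_right _ _).trans
    (min_le_left _ _)) hA)
  obtain ⟨B₁, b1, b2, V, zp, zs, cf, b3⟩ := hb₁ J (by omega) F A (S.mono (min_le_left _ _) hA)
    au cu _ _ (Nat.floor_le_floor (mul_le_mul_of_nonneg_right l1 hJ0))
    (Nat.floor_le_floor (mul_le_mul_of_nonneg_right (by linarith) hJ0)) hdp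
  have f1 : (⌊x₁ / 32 * (J : ℝ)⌋₊ : ℝ) ≤ x₁ / 32 * J := Nat.floor_le (by positivity)
  have f2 : (⌊x / 8 * (J : ℝ)⌋₊ : ℝ) ≤ x / 8 * J := Nat.floor_le (by positivity)
  have f3 : x * (J : ℝ) - 1 < ⌊x * (J : ℝ)⌋₊ := Nat.sub_one_lt_floor _
  have f4 : (N - W - x / 2) * (J : ℝ) - 1 < ⌊(N - W - x / 2) * (J : ℝ)⌋₊ :=
    Nat.sub_one_lt_floor _
  have f5 : (⌊(N - W - x) * (J : ℝ)⌋₊ : ℝ) ≤ (N - W - x) * J :=
    Nat.floor_le (mul_nonneg (by linarith) hJ0)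
  have f6 : (⌊W * (J : ℝ)⌋₊ : ℝ) ≤ W * J := Nat.floor_le (by positivity)
  have g1 : x₁ * (J : ℝ) ≤ x / 8 * J := mul_le_mul_of_nonneg_right k1 hJ0
  have hcast : ∀ a b : ℕ, (a : ℝ) ≤ b → a ≤ b := fun a b h => by exact_mod_cast h
  obtain ⟨E, hE⟩ : ∃ E, E = ⌊x₁ / 32 * (J : ℝ)⌋₊ := ⟨_, rfl⟩
  rw [← hE] at f1 b3
  have hq3 : (2 : ℝ) * (2 ^ (⌊W * (J : ℝ)⌋₊ + 2) / 2 ^ (⌊W * (J : ℝ)⌋₊ +
      ⌊(N - W - x / 2) * (J : ℝ)⌋₊)) = 8 / 2 ^ ⌊(N - W - x / 2) * (J : ℝ)⌋₊ := by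
    rw [pow_add, pow_add]
    field_simp
    norm_num
  have hvel : ∀ ω, B₁ ω → |F.d ω v - (cf (zp (ptr F J ω)) 1 + (cf (zp (ptr F J ω)) 2 * F.d ω y +
      cf (zp (ptr F J ω)) 3 * F.d ω u))| ≤ 8 / 2 ^ ⌊(N - W - x / 2) * (J : ℝ)⌋₊ := by
    intro ω hω
    rw [← hq3]
    exact b3.vel hω
  have hc3 : ∀ ω, B₁ ω → |cf (zp (ptr F J ω)) 3| ≤ 2 ^ E := by
    intro ω hω
    rw [b3.1.cls ω hω]
    exact (b3.2 ω hω).1
  have hE1 : (1 : ℝ) ≤ 2 ^ E := one_le_pow₀ (by norm_num)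
  have hrel : ∀ ω, B₁ ω → |cf (zp (ptr F J ω)) 1 + cf (zp (ptr F J ω)) 2 * F.d ω y| ≤
      2 ^ (E + 4) := by
    intro ω hω
    have h1 := hvel ω hω
    have h2 : |cf (zp (ptr F J ω)) 3 * F.d ω u| ≤ 2 ^ E := by
      rw [abs_mul]
      have := mul_le_mul (hc3 ω hω) (F.dir ω u) (abs_nonneg _) (by positivity)
      linarith only [this]
    have h3 := F.dir ω v
    have h4 : (8 : ℝ) / 2 ^ ⌊(N - W - x / 2) * (J : ℝ)⌋₊ ≤ 8 :=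
      div_le_self (by norm_num) (one_le_pow₀ (by norm_num))
    have h5 := h1.trans h4
    have h6 : (2 : ℝ) ^ (E + 4) = 16 * 2 ^ E := by
      rw [pow_add]
      ring
    rw [h6]
    rw [abs_le] at h2 h3 h5 ⊢
    constructor <;> linarith only [h2.1, h2.2, h3.1, h3.2, h5.1, h5.2, hE1]
  have hB₁0 := Pe_nonneg F.isLaw B₁
  obtain ⟨B₂, c1, c2, c3⟩ := hb₃ J (by omega) F A (S.mono ((min_le_right _ _).trans
    (min_le_right _ _)) hA) B₁ b1 b2 (fun p => cf (zp p) 1) (fun p => cf (zp p) 2)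
    (2 ^ (E + 4)) (by positivity) hrel
  have hx7 : ⌊x / 8 * (J : ℝ)⌋₊ + (E + 5) ≤ ⌊x * (J : ℝ)⌋₊ := hcast _ _ (by
    push_cast
    linarith only [f1, f2, f3, g1, hxJ])
  have hcy : ∀ ω, B₂ ω → |cf (zp (ptr F J ω)) 2| ≤ 2 ^ (⌊x / 8 * (J : ℝ)⌋₊ + (E + 4)) := by
    intro ω hω
    rw [pow_add (2 : ℝ) ⌊x / 8 * (J : ℝ)⌋₊]
    exact c3 ω hω
  have hct : ∀ ω, B₂ ω → |cf (zp (ptr F J ω)) 1| ≤ 2 ^ (⌊x / 8 * (J : ℝ)⌋₊ + (E + 5)) := by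
    intro ω hω
    have h1 := hcy ω hω
    have h2 := hrel ω (c1 ω hω)
    have h3 : |cf (zp (ptr F J ω)) 2 * F.d ω y| ≤ 2 ^ (⌊x / 8 * (J : ℝ)⌋₊ + (E + 4)) := by
      rw [abs_mul]
      have := mul_le_mul h1 (F.dir ω y) (abs_nonneg _) (by positivity)
      linarith only [this]
    have h4 : (2 : ℝ) ^ (E + 4) ≤ 2 ^ (⌊x / 8 * (J : ℝ)⌋₊ + (E + 4)) :=
      pow_le_pow_right₀ (by norm_num) (by omega)
    have h5 : (2 : ℝ) ^ (⌊x / 8 * (J : ℝ)⌋₊ + (E + 5)) =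
        2 ^ (⌊x / 8 * (J : ℝ)⌋₊ + (E + 4)) + 2 ^ (⌊x / 8 * (J : ℝ)⌋₊ + (E + 4)) := by
      rw [show ⌊x / 8 * (J : ℝ)⌋₊ + (E + 5) = ⌊x / 8 * (J : ℝ)⌋₊ + (E + 4) + 1 by ring, pow_succ]
      ring
    rw [h5]
    rw [abs_le] at h2 h3 ⊢
    constructor <;> linarith only [h2.1, h2.2, h3.1, h3.2, h4]
  have hcla : ClA F B₂ {y, u} v (⌊W * (J : ℝ)⌋₊ + 2) ⌊x * J⌋₊ ⌊(N - W - x) * J⌋₊
      (fun p k => if k = y then cf (zp p) 2 else cf (zp p) 3) (fun p => cf (zp p) 1) := by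
    have hcl : ∀ i : Fin 4, Cl1 F B₂ (⌊W * (J : ℝ)⌋₊ + 2) (fun p => cf (zp p) i) := fun i =>
      ⟨fun s => cf (zs s) i, fun ω hω => by
        show cf (zp (ptr F J ω)) i = _
        rw [b3.1.cls ω (c1 ω hω)]⟩
    refine ⟨fun ω hω => ⟨fun k _ => ?_, ?_, ?_⟩, fun k _ => ?_, hcl 1⟩
    · by_cases hk : k = y
      · simp only [if_pos hk]
        exact (hcy ω hω).trans (pow_le_pow_right₀ (by norm_num) (by omega))
      · simp only [if_neg hk]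
        exact (hc3 ω (c1 ω hω)).trans (pow_le_pow_right₀ (by norm_num) (by omega))
    · exact (hct ω hω).trans (pow_le_pow_right₀ (by norm_num) hx7)
    · rw [Finset.sum_pair hyu]
      simp only [if_true, if_neg hyu.symm]
      have h1 := hvel ω (c1 ω hω)
      rw [← sub_sub] at h1
      refine h1.trans ?_
      have h2 : ⌊(N - W - x) * (J : ℝ)⌋₊ + 3 ≤ ⌊(N - W - x / 2) * (J : ℝ)⌋₊ := hcast _ _ (by
        push_cast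
        linarith only [f4, f5, hxJ])
      rw [div_le_div_iff₀ (by positivity) (by positivity), one_mul]
      have h3 : (8 : ℝ) * 2 ^ ⌊(N - W - x) * (J : ℝ)⌋₊ = 2 ^ (⌊(N - W - x) * (J : ℝ)⌋₊ + 3) := by
        rw [pow_add]
        norm_num
        ring
      rw [h3]
      exact pow_le_pow_right₀ (by norm_num) h2
    · by_cases hk : k = y
      · simp only [if_pos hk]
        exact hcl 2
      · simp only [if_neg hk]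
        exact hcl 3
  have hW2 : ⌊W * (J : ℝ)⌋₊ + 2 ≤ J := hcast _ _ (by
    push_cast
    have h1 : N * (J : ℝ) ≤ (1 + x / 8) * J := mul_le_mul_of_nonneg_right hN1 hJ0
    have h2 : (x + W) * (J : ℝ) ≤ N * J := mul_le_mul_of_nonneg_right (by linarith only [hc]) hJ0
    linarith only [f6, h1, h2, hxJ])
  obtain ⟨B, d1, d2, d3⟩ := cla_cut hcla hW2
  refine ⟨B, fun ω hω => b1 ω (c1 ω (d1 ω hω)), ?_, _, _, d3⟩
  linarith only [b2, c2, d2]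

/-- **From labels of degree one.** -/
theorem hasA_lb {S : PCl m} {I : Finset (Fin m)} {k : Fin m} {W N : ℝ} (hW : 0 ≤ W)
    (h : ∀ x : ℝ, 0 < x → ∃ C : ℝ, Bas S (fun J F A => ∃ B : F.Ω → Prop, Sub B A ∧
      Pe F.p A ≤ C * Pe F.p B ∧ ∃ ρ : ℕ, Lb F I k 1 ⌊x * J⌋₊ J ⌊W * J⌋₊ ρ ⌊(N - x) * J⌋₊ B))
    {x : ℝ} (hx : 0 < x) :
    ∃ C : ℝ, Bas S (fun J F A => ∃ B : F.Ω → Prop, Sub B A ∧
      Pe F.p A ≤ C * Pe F.p B ∧ ∃ (a : PtT F → Fin m → ℝ) (c : PtT F → ℝ),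
        ClA F B I k ⌊W * J⌋₊ ⌊x * J⌋₊ ⌊(N - W - x) * J⌋₊ a c) := by
  rcases le_or_gt (N - W) x with hc | hc
  · exact hasA_triv I k hc
  obtain ⟨C, h1⟩ := h (x / 2) (by linarith)
  obtain ⟨J₁, hJ₁⟩ := exists_nat_ge ((2 : ℝ) / x)
  refine ⟨C, Bas.mono J₁ h1 ?_⟩
  rintro J hJ F A ⟨B, b1, b2, ρ, b3⟩
  have hJ0 : (0 : ℝ) ≤ J := Nat.cast_nonneg J
  have hxJ : 2 ≤ x * J := by
    have h2 : (J₁ : ℝ) ≤ J := by exact_mod_cast hJ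
    have h3 := hJ₁.trans h2
    rw [div_le_iff₀ hx] at h3
    linarith only [h3]
  have f1 : (⌊(N - W - x) * (J : ℝ)⌋₊ : ℝ) ≤ (N - W - x) * J :=
    Nat.floor_le (mul_nonneg (by linarith) hJ0)
  have f2 : (⌊W * (J : ℝ)⌋₊ : ℝ) ≤ W * J := Nat.floor_le (by positivity)
  have f3 : (N - x / 2) * (J : ℝ) - 1 < ⌊(N - x / 2) * (J : ℝ)⌋₊ := Nat.sub_one_lt_floor _
  have hcast : ∀ a b : ℕ, (a : ℝ) ≤ b → a ≤ b := fun a b h => by exact_mod_cast h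
  obtain ⟨a, c, h2⟩ := cla_lb (M := ⌊(N - W - x) * (J : ℝ)⌋₊) b3 (hcast _ _ (by
    push_cast
    linarith only [f1, f2, f3, hxJ]))
  have he : (2 : ℝ) ^ ⌊x / 2 * (J : ℝ)⌋₊ ≤ 2 ^ ⌊x * (J : ℝ)⌋₊ :=
    pow_le_pow_right₀ (by norm_num)
      (Nat.floor_le_floor (mul_le_mul_of_nonneg_right (by linarith) hJ0))
  refine ⟨B, b1, b2, a, c, fun ω hω => ?_, h2.ca, h2.cc⟩
  obtain ⟨h3, h4, h5⟩ := h2.dp ω hω
  exact ⟨fun k hk => (h3 k hk).trans he, h4.trans he, h5⟩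

/-- The numbers are continuous from the left. -/
theorem lc_of {f : ℝ → ℝ} {W : ℝ} (hW : 0 < W) (hf : ContinuousAt f W) :
    ∀ ε : ℝ, 0 < ε → ∃ W' : ℝ, 0 ≤ W' ∧ W' < W ∧ f W ≤ f W' + ε := by
  intro ε hε
  obtain ⟨η, hη, h⟩ := Metric.continuousAt_iff.1 hf ε hε
  obtain ⟨o, ho⟩ : ∃ o, o = min (η / 2) (W / 2) := ⟨_, rfl⟩
  have ho0 : 0 < o := by rw [ho]; exact lt_min (by linarith) (by linarith)
  have ho1 : o ≤ η / 2 := by rw [ho]; exact min_le_left _ _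
  have ho2 : o ≤ W / 2 := by rw [ho]; exact min_le_right _ _
  refine ⟨W - o, by linarith, by linarith, ?_⟩
  have h1 := @h (W - o) (by
    rw [Real.dist_eq]
    have : W - o - W = -o := by ring
    rw [this, abs_neg, abs_of_pos ho0]
    linarith)
  rw [Real.dist_eq, abs_lt] at h1
  linarith [h1.1]

/-- **Countably many labels at once.** -/
theorem hasA_cnt {S : PCl m} (hS : S.Ne) {ι : Type} [Countable ι] (P : ι → Prop)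
    (I : ι → Finset (Fin m)) (v : ι → Fin m) (w N : ι → ℝ) (hw : ∀ i, P i → w i ≤ 1)
    (h : ∀ i, P i → ∀ x : ℝ, 0 < x → ∃ C : ℝ, Bas S (fun J F A => ∃ B : F.Ω → Prop, Sub B A ∧
      Pe F.p A ≤ C * Pe F.p B ∧ ∃ (a : PtT F → Fin m → ℝ) (c : PtT F → ℝ),
        ClA F B (I i) (v i) ⌊w i * J⌋₊ ⌊x * J⌋₊ ⌊(N i - w i - x) * J⌋₊ a c)) :
    ∃ S' : PCl m, S'.Ne ∧
      (∀ (τ : ℝ) (J : ℕ) (F : Fam m J) (A : F.Ω → Prop), S'.St τ J F A → S.St τ J F A) ∧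
      ∀ i, P i → HasA S' (I i) (v i) (w i) (N i) := by
  classical
  by_cases hP : ∃ i, P i
  · have : Nonempty {i // P i} := ⟨⟨hP.choose, hP.choose_spec⟩⟩
    obtain ⟨f, hf⟩ := exists_surjective_nat {i // P i}
    obtain ⟨S', h1, h2, h3⟩ := hasA_of hS (fun n => I (f n)) (fun n => v (f n))
      (fun n => w (f n)) (fun n => N (f n)) (fun n => hw _ (f n).2) (fun n => h _ (f n).2)
    refine ⟨S', h1, h2, fun i hi => ?_⟩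
    obtain ⟨n, hn⟩ := hf ⟨i, hi⟩
    have h4 := h3 n
    rw [hn] at h4
    exact h4
  · exact ⟨S, hS, fun _ _ _ _ h => h, fun i hi => absurd ⟨i, hi⟩ hP⟩

/-- The number may be a limit. -/
theorem hasA_lim {S : PCl m} {I : Finset (Fin m)} {v : Fin m} {w N : ℝ}
    (h : ∀ N' : ℚ, (N' : ℝ) < N → HasA S I v w N') (hw : w ≤ 1) : HasA S I v w N := by
  intro x hx
  obtain ⟨N', h1, h2⟩ := exists_rat_btwn (by linarith : N - x / 2 < N)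
  refine Bas.mono 0 (h N' h2 (x / 2) (by linarith)) ?_
  rintro J - F A ⟨a, c, h5⟩
  have hJ0 : (0 : ℝ) ≤ J := Nat.cast_nonneg J
  refine ⟨a, c, cla_mono h5 le_rfl ?_ ?_ ?_⟩
  · have : ⌊w * (J : ℝ)⌋₊ ≤ ⌊(1 : ℝ) * J⌋₊ :=
      Nat.floor_le_floor (mul_le_mul_of_nonneg_right hw hJ0)
    rwa [one_mul, Nat.floor_natCast] at this
  · exact Nat.floor_le_floor (mul_le_mul_of_nonneg_right (by linarith) hJ0)
  · exact Nat.floor_le_floor (mul_le_mul_of_nonneg_right (by linarith) hJ0)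

/-- **All labels at the rational windows**, in one subclass. -/
theorem hasA_rat {S : PCl m} (hS : S.Ne) {C₀ : ℝ} (hC₀ : 0 ≤ C₀) (htm : TmC S C₀)
    {L : Finset (Fin m) → Fin m → ℝ → ℝ → ℝ} (hL : LamW S L) :
    ∃ S' : PCl m, S'.Ne ∧
      (∀ (τ : ℝ) (J : ℕ) (F : Fam m J) (A : F.Ω → Prop), S'.St τ J F A → S.St τ J F A) ∧
      (∀ (y u : Fin m) (W : ℚ), ActF S y → 0 < (W : ℝ) → (W : ℝ) < 1 →
        (∀ ε : ℝ, 0 < ε → ∃ W' : ℝ, 0 ≤ W' ∧ W' < W ∧ L {y} u W 0 ≤ L {y} u W' 0 + ε) →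
        HasA S' {y} u W (L {y} u W 0)) ∧
      ∀ (y u v : Fin m) (W : ℚ) (N : ℝ), ActF S y → y ≠ u →
        ContinuousAt (fun W => L {y} u W 0) W → (W : ℝ) < L {y} u W 0 → L {y} u W 0 < 1 →
        (∃ b : ℝ, 0 ≤ b ∧ b < 1 ∧ L {y} u W 0 - W < L {y} u b b - b) →
        (∀ ε : ℝ, 0 < ε → ∃ W' r' : ℝ, W' < W ∧ 0 ≤ r' ∧ r' < W ∧
          N ≤ L {y, u} v W' r' + ε) → HasA S' {y, u} v W N := by
  classical
  obtain ⟨S₁, a1, a2, a3⟩ := hasA_cnt hS (ι := Fin m × Fin m × ℚ)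
    (fun i => ActF S i.1 ∧ 0 < (i.2.2 : ℝ) ∧ (i.2.2 : ℝ) < 1 ∧ ∀ ε : ℝ, 0 < ε → ∃ W' : ℝ,
      0 ≤ W' ∧ W' < i.2.2 ∧ L {i.1} i.2.1 i.2.2 0 ≤ L {i.1} i.2.1 W' 0 + ε)
    (fun i => {i.1}) (fun i => i.2.1) (fun i => i.2.2) (fun i => L {i.1} i.2.1 i.2.2 0)
    (fun i hi => hi.2.2.1.le)
    (fun i hi x hx => hasA1 hC₀ htm hL hi.1 hi.2.1 hi.2.2.1 hi.2.2.2 hx)
  have hL₁ := hL.sub a2
  have htm₁ : TmC S₁ C₀ := fun τ J F A h1 h2 => htm τ J F A h1 (a2 τ J F A h2)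
  obtain ⟨S₂, b1, b2, b3⟩ := hasA_cnt a1 (ι := Fin m × Fin m × Fin m × ℚ × ℚ)
    (fun i => ActF S i.1 ∧ i.1 ≠ i.2.1 ∧
      ContinuousAt (fun W => L {i.1} i.2.1 W 0) (i.2.2.2.1 : ℝ) ∧
      (i.2.2.2.1 : ℝ) < L {i.1} i.2.1 i.2.2.2.1 0 ∧ L {i.1} i.2.1 i.2.2.2.1 0 < 1 ∧
      (∃ b : ℝ, 0 ≤ b ∧ b < 1 ∧
        L {i.1} i.2.1 i.2.2.2.1 0 - i.2.2.2.1 < L {i.1} i.2.1 b b - b) ∧
      (∀ ε : ℝ, 0 < ε → ∃ W' r' : ℝ, W' < i.2.2.2.1 ∧ 0 ≤ r' ∧ r' < i.2.2.2.1 ∧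
        (i.2.2.2.2 : ℝ) ≤ L {i.1, i.2.1} i.2.2.1 W' r' + ε))
    (fun i => {i.1, i.2.1}) (fun i => i.2.2.1) (fun i => i.2.2.2.1) (fun i => i.2.2.2.2)
    (fun i hi => (hi.2.2.2.1.trans hi.2.2.2.2.1).le)
    (fun i hi x hx => hasA2 hC₀ htm₁ hL₁ hi.2.1
      (fun g hg => by
        obtain ⟨c, h1, h2⟩ := hi.1 g hg
        exact ⟨c, h1, Bas.sub a2 h2⟩) hi.2.2.1 hi.2.2.2.1 hi.2.2.2.2.1 hi.2.2.2.2.2.1
        hi.2.2.2.2.2.2 hx)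
  refine ⟨S₂, b1, fun τ J F A h => a2 τ J F A (b2 τ J F A h), fun y u W h1 h2 h3 h4 =>
    (a3 (y, u, W) ⟨h1, h2, h3, h4⟩).subc b2, fun y u v W N h1 h2 h3 h4 h5 h6 h7 => ?_⟩
  refine hasA_lim (fun N' hN' => b3 (y, u, v, W, N') ⟨h1, h2, h3, h4, h5, h6, fun ε hε => ?_⟩)
    (h4.trans h5).le
  obtain ⟨W', r', k1, k2, k3, k4⟩ := h7 ε hε
  exact ⟨W', r', k1, k2, k3, hN'.le.trans k4⟩

end Pool.PRV
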