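import Pool.Agent.H21.PRV.Prv
import Pool.Agent.H72.OWN.Rep2

/-!
# Labels which are closed in longer windows, and linear numbers

`hasA_lc`, `hasB_lc`: affine closed labels of the windows `W' ≤ W` give those of the window `W`.
`gre_lin`: the growth of numbers which are nearly linear in the window.
-/

set_option autoImplicit false

namespace Pool.PRV

open Finset MvPolynomial
open Pool.Agent.H49.Ent Pool.Agent.H32.Dense Pool.STK Pool.KA Pool.KSAT Pool.K2S Pool.PB Pool.GEN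
open Pool.S6C
open Pool.JVE (DpI)
open Pool.OWN72 (Cl1 ClA HasA HasB GrE img)

variable {m J : ℕ}

/-- **Closed in a longer window**, slopes up to `2 ^ (E J)`. -/
theorem hasB_low {S : PCl m} {I : Finset (Fin m)} {v : Fin m} {W N E : ℝ} (hW : W ≤ 1)
    (h : ∀ ε : ℝ, 0 < ε → ∃ W' N' E' : ℝ, W' ≤ W ∧ N - W ≤ N' - W' + ε ∧ E' ≤ E + ε ∧
      HasB S I v W' N' E') : HasB S I v W N E := by
  intro x hx
  obtain ⟨W', N', E', h1, h2, h3, h4⟩ := h (x / 2) (by linarith)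
  refine Bas.mono 0 (h4 (x / 2) (by linarith)) ?_
  rintro J - F A ⟨a, c, h5⟩
  have hJ0 : (0 : ℝ) ≤ J := Nat.cast_nonneg J
  refine ⟨a, c, cla_mono h5 ?_ ?_ ?_ ?_⟩
  · exact Nat.floor_le_floor (mul_le_mul_of_nonneg_right h1 hJ0)
  · have : ⌊W * (J : ℝ)⌋₊ ≤ ⌊(1 : ℝ) * J⌋₊ :=
      Nat.floor_le_floor (mul_le_mul_of_nonneg_right hW hJ0)
    rwa [one_mul, Nat.floor_natCast] at this
  · exact Nat.floor_le_floor (mul_le_mul_of_nonneg_right (by linarith) hJ0)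
  · exact Nat.floor_le_floor (mul_le_mul_of_nonneg_right (by linarith) hJ0)

/-- **Closed in a longer window.** -/
theorem hasA_low {S : PCl m} {I : Finset (Fin m)} {v : Fin m} {W N : ℝ} (hW : W ≤ 1)
    (h : ∀ ε : ℝ, 0 < ε → ∃ W' N' : ℝ, W' ≤ W ∧ N - W ≤ N' - W' + ε ∧ HasA S I v W' N') :
    HasA S I v W N := by
  intro x hx
  obtain ⟨W', N', h1, h2, h4⟩ := h (x / 2) (by linarith)
  refine Bas.mono 0 (h4 (x / 2) (by linarith)) ?_
  rintro J - F A ⟨a, c, h5⟩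
  have hJ0 : (0 : ℝ) ≤ J := Nat.cast_nonneg J
  refine ⟨a, c, cla_mono h5 ?_ ?_ ?_ ?_⟩
  · exact Nat.floor_le_floor (mul_le_mul_of_nonneg_right h1 hJ0)
  · have : ⌊W * (J : ℝ)⌋₊ ≤ ⌊(1 : ℝ) * J⌋₊ :=
      Nat.floor_le_floor (mul_le_mul_of_nonneg_right hW hJ0)
    rwa [one_mul, Nat.floor_natCast] at this
  · exact Nat.floor_le_floor (mul_le_mul_of_nonneg_right (by linarith) hJ0)
  · exact Nat.floor_le_floor (mul_le_mul_of_nonneg_right (by linarith) hJ0)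

/-- **Labels at a set of windows.** -/
theorem hasA_lc {S : PCl m} {L : Finset (Fin m) → Fin m → ℝ → ℝ → ℝ} {I : Finset (Fin m)}
    {v : Fin m} {W : ℝ} {Wd : Set ℝ} (hW : W ≤ 1) (h : ∀ W' ∈ Wd, HasA S I v W' (L I v W' 0))
    (hl : ∀ ε : ℝ, 0 < ε → ∃ W' ∈ Wd, 0 ≤ W' ∧ W' < W ∧ L I v W 0 - W ≤ L I v W' 0 - W' + ε) :
    HasA S I v W (L I v W 0) := by
  refine hasA_low hW fun ε hε => ?_
  obtain ⟨W', h1, -, h3, h4⟩ := hl ε hε
  exact ⟨W', L I v W' 0, h3.le, h4, h W' h1⟩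

/-- **Labels at a set of windows**, slopes up to `2 ^ (E J)`. -/
theorem hasB_lc {S : PCl m} {L : Finset (Fin m) → Fin m → ℝ → ℝ → ℝ} {I : Finset (Fin m)}
    {v : Fin m} {W E : ℝ} {Wd : Set ℝ} (hW : W ≤ 1)
    (h : ∀ W' ∈ Wd, HasB S I v W' (L I v W' 0) E)
    (hl : ∀ ε : ℝ, 0 < ε → ∃ W' ∈ Wd, 0 ≤ W' ∧ W' < W ∧ L I v W 0 - W ≤ L I v W' 0 - W' + ε) :
    HasB S I v W (L I v W 0) E := by
  refine hasB_low hW fun ε hε => ?_
  obtain ⟨W', h1, -, h3, h4⟩ := hl ε hε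
  exact ⟨W', L I v W' 0, E, h3.le, h4, by linarith, h W' h1⟩

/-- A dense set has windows below `W` at which `L - id` is not much smaller, if it is continuous. -/
theorem lc_dense {f : ℝ → ℝ} {W : ℝ} {Wd : Set ℝ} (hW : 0 < W) (hd : Dense Wd)
    (hf : ContinuousAt f W) : ∀ ε : ℝ, 0 < ε → ∃ W' ∈ Wd, 0 ≤ W' ∧ W' < W ∧
      f W - W ≤ f W' - W' + ε := by
  intro ε hε
  obtain ⟨η, hη, h⟩ := Metric.continuousAt_iff.1 hf (ε / 2) (by linarith)
  obtain ⟨o, ho⟩ : ∃ o, o = min (min η (W / 2)) (ε / 2) := ⟨_, rfl⟩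
  have ho0 : 0 < o := by
    rw [ho]
    exact lt_min (lt_min hη (by linarith)) (by linarith)
  have ho' : o ≤ η ∧ o ≤ W / 2 ∧ o ≤ ε / 2 := by
    have := ho.le
    simp only [le_min_iff] at this
    tauto
  obtain ⟨o1, o2, o3⟩ := ho'
  obtain ⟨W', h1, h2, h3⟩ := hd.exists_between (show W - o < W by linarith)
  refine ⟨W', h1, by linarith, h3, ?_⟩
  have h4 := @h W' (by
    rw [Real.dist_eq, abs_lt]
    constructor <;> linarith)
  rw [Real.dist_eq, abs_lt] at h4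
  linarith [h4.1]

/-- **The growth of nearly linear numbers.** -/
theorem gre_lin {L : Finset (Fin m) → Fin m → ℝ → ℝ → ℝ} {c : ℕ → Fin m} {n : ℕ} {Wd : Set ℝ}
    {g R Pm Δ be d c0 : ℝ} (D s : ℕ → ℝ) (hbe : 0 < be) (hdc : d < c0)
    (hden : Dense Wd)
    (hlin : ∀ w, g ≤ w → w ≤ g + R → ∀ l, 1 ≤ l → l < n →
      |L (img c l) (c l) w 0 - (D l + s l * (w - g))| ≤ d)
    (hs : ∀ l, 1 ≤ l → l < n → 1 + be ≤ s l) (hD : ∀ l, 1 ≤ l → l < n → g + c0 ≤ D l)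
    (hP : Pm + 2 * d < be * Δ) (hΔ : 0 < Δ) : GrE L c n Wd g R Pm Δ := by
  refine ⟨fun x y _ hxy _ => ?_, fun w hw hwR l h1 h2 => ?_, fun l h1 h2 w hw hwR => ?_⟩
  · obtain ⟨w, h1, h2, h3⟩ := hden.exists_between hxy
    exact ⟨w, h1, h2, h3⟩
  · have h3 := abs_le.1 (hlin w hw hwR l h1 h2)
    have h4 := hs l h1 h2
    have h5 := hD l h1 h2
    have h6 : (w - g) * (1 + be) ≤ (w - g) * s l :=
      mul_le_mul_of_nonneg_left h4 (by linarith)
    have h7 : 0 ≤ (w - g) * be := mul_nonneg (by linarith) hbe.le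
    nlinarith [h3.1]
  · obtain ⟨o, ho⟩ : ∃ o, o = max 0 ((Pm + 2 * d) / be) := ⟨_, rfl⟩
    have ho0 : 0 ≤ o := by rw [ho]; exact le_max_left _ _
    have ho1 : (Pm + 2 * d) / be ≤ o := by rw [ho]; exact le_max_right _ _
    have ho2 : o < Δ := by
      rw [ho]
      refine max_lt hΔ ?_
      rw [div_lt_iff₀ hbe]
      linarith
    rw [div_le_iff₀ hbe] at ho1
    refine ⟨w + o, by linarith, by linarith, fun a ha1 ha2 => ?_⟩
    have h3 := abs_le.1 (hlin w hw (by linarith) l h1 h2)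
    have h4 := abs_le.1 (hlin a (by linarith) (by linarith) l h1 h2)
    have h5 := hs l h1 h2
    have h6 : (a - w) * (1 + be) ≤ (a - w) * s l :=
      mul_le_mul_of_nonneg_left h5 (by linarith)
    have h7 : o * be < (a - w) * be := mul_lt_mul_of_pos_right (by linarith) hbe
    nlinarith [h3.2, h4.1]

end Pool.PRV
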