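import Pool.Agent.H6.AFR.Tcr
import Pool.Agent.H21.PRV.Prv3
import Pool.Agent.H40.ISO.Hta

/-!
# Affine closed labels over three coordinates

`lb_cla`: closed labels of degree one are affine closed labels. `ndn_cls`: the slopes of the first
two coordinates from affine closed labels and the own velocities. `hasA3`: the fourth coordinate over
the first three. `hasA3_rat`: all of them in one subclass.
-/

set_option autoImplicit false

namespace Pool.PRV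

open Finset MvPolynomial
open Pool.Agent.H49.Ent Pool.Agent.H32.Dense Pool.STK Pool.KA Pool.KSAT Pool.K2S Pool.PB Pool.GEN
open Pool.S6C
open Pool.JVE (DpI NDn)
open Pool.OWN72 (Cl1 ClA HasA RepP)
open Pool.MIC6 (ActF)
open Pool.LA91 (Ful FulC)
open Pool.STAT.OKI (pd_aff)

variable {m J : ℕ}

/-- A coefficient of a coordinate which does not enter. -/
theorem cf_dep {G : MvPolynomial (Option (Fin m)) ℝ} {I : Finset (Fin m)}
    (hd : G.totalDegree ≤ 1)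
    (h : ∀ b b' : Option (Fin m) → ℝ, b none = b' none →
      (∀ i ∈ I, b (some i) = b' (some i)) → eval b G = eval b' G) {k : Fin m} (hk : k ∉ I) :
    coeff (Finsupp.single (some k) 1) G = 0 := by
  classical
  obtain ⟨g, hg⟩ : ∃ g : Option (Fin m) → Polynomial ℝ, g = fun j =>
      if j = some k then Polynomial.X else 0 := ⟨_, rfl⟩
  have hge : ∀ (t : ℝ), (MvPolynomial.aeval g G).eval t =
      MvPolynomial.eval (fun j => if j = some k then t else 0) G := by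
    intro t
    rw [Pool.KBX.eval_aeval_poly]
    congr 1
    congr 1
    funext j
    rw [hg]
    by_cases hj : j = some k
    · simp [hj]
    · simp [hj]
  have hc : MvPolynomial.aeval g G = Polynomial.C (eval (fun _ => (0 : ℝ)) G) := by
    refine Polynomial.funext fun t => ?_
    rw [hge, Polynomial.eval_C]
    refine h _ _ ?_ fun i hi => ?_
    · simp
    · have : ¬ (some i = some k) := fun h => hk (by
        rw [← Option.some.inj h]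
        exact hi)
      simp only [if_neg this]
  have hd' : (Polynomial.derivative (MvPolynomial.aeval g G)).eval 0 =
      eval (fun _ => (0 : ℝ)) (pderiv (some k) G) := by
    rw [der_aevalσ, Polynomial.eval_finsetSum, Finset.sum_eq_single (some k)]
    · rw [Polynomial.eval_mul, Pool.KBX.eval_aeval_poly, hg]
      have e1 : (fun i => Polynomial.eval 0 ((fun j : Option (Fin m) =>
          if j = some k then (Polynomial.X : Polynomial ℝ) else 0) i)) =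
          fun _ : Option (Fin m) => (0 : ℝ) := by
        funext i
        by_cases hi : i = some k
        · simp [hi]
        · simp [hi]
      have e2 : (fun j : Option (Fin m) => if j = some k then (Polynomial.X : Polynomial ℝ)
          else 0) (some k) = Polynomial.X := if_pos rfl
      rw [e1, e2, Polynomial.derivative_X, Polynomial.eval_one, mul_one]
    · intro j _ hj
      rw [Polynomial.eval_mul, hg]
      simp [hj]
    · intro h'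
      exact absurd (Finset.mem_univ _) h'
  rw [← pd_aff hd (some k) (fun _ => 0), ← hd', hc]
  simp

/-- **Closed labels of degree one are affine closed labels.** -/
theorem lb_cla {F : Fam m J} {I : Finset (Fin m)} {k : Fin m} {e w ρ P : ℕ} {A : F.Ω → Prop}
    (h : Lb F I k 1 e J w ρ P A) (hP : w ≤ P) :
    ∃ (a : PtT F → Fin m → ℝ) (c : PtT F → ℝ), ClA F A I k w e (P - w) a c := by
  classical
  obtain ⟨V, z, z', G, hG⟩ := h
  have hb : ∀ ω, A ω → ∀ o, |coeff (Finsupp.single o 1) (G (z' (slam F w ω)))| ≤ 2 ^ e := by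
    intro ω hω o
    rw [← pd_aff (hG.deg _) o (bt F ω)]
    exact hG.lip ω hω (bt F ω) (fun o => by
      rw [sub_self, abs_zero]
      positivity) o
  refine ⟨fun p k => coeff (Finsupp.single (some k) 1) (G (z p)),
    fun p => coeff (Finsupp.single none 1) (G (z p)), ⟨fun ω hω => ⟨fun i _ => ?_, ?_, ?_⟩,
    fun i _ => ⟨fun s => coeff (Finsupp.single (some i) 1) (G (z' s)), fun ω hω => ?_⟩,
    ⟨fun s => coeff (Finsupp.single none 1) (G (z' s)), fun ω hω => ?_⟩⟩⟩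
  · rw [hG.cls ω hω]
    exact hb ω hω _
  · rw [hG.cls ω hω]
    exact hb ω hω _
  · rw [hG.cls ω hω]
    have h1 := hG.vel ω hω
    have h2 : ∑ o, bd F ω o * eval (bt F ω) (pderiv o (G (z' (slam F w ω)))) =
        coeff (Finsupp.single none 1) (G (z' (slam F w ω))) +
        ∑ i ∈ I, coeff (Finsupp.single (some i) 1) (G (z' (slam F w ω))) * F.d ω i := by
      have h3 : ∀ o, bd F ω o * eval (bt F ω) (pderiv o (G (z' (slam F w ω)))) =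
          bd F ω o * coeff (Finsupp.single o 1) (G (z' (slam F w ω))) := fun o => by
        rw [pd_aff (hG.deg _) o (bt F ω)]
      rw [Finset.sum_congr rfl fun o _ => h3 o, Fintype.sum_option]
      have e1 : bd F ω none = 1 := rfl
      have e2 : ∀ i, bd F ω (some i) = F.d ω i := fun _ => rfl
      rw [e1, one_mul]
      congr 1
      rw [← Finset.sum_subset (Finset.subset_univ I)]
      · refine Finset.sum_congr rfl fun i _ => ?_
        rw [e2]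
        ring
      · intro i _ hi
        rw [cf_dep (hG.deg _) (hG.dep _) hi, mul_zero]
    rw [h2] at h1
    have h4 : (2 : ℝ) ^ w / 2 ^ P = 1 / 2 ^ (P - w) := by
      rw [div_eq_div_iff (by positivity) (by positivity), one_mul, ← pow_add]
      congr 1
      omega
    rw [h4, ← sub_sub] at h1
    exact h1
  · show coeff (Finsupp.single (some i) 1) (G (z (ptr F J ω))) = _
    rw [hG.cls ω hω]
  · show coeff (Finsupp.single none 1) (G (z (ptr F J ω))) = _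
    rw [hG.cls ω hω]

/-- **The slopes of the first two coordinates** from affine closed labels and the own
velocities. -/
theorem ndn_cls {S : PCl m} {C₀ : ℝ} (htm : TmC S C₀) {y u v : Fin m} (hyu : y ≠ u)
    (hact : ActF S y) {W U D P x : ℝ} (hUW : W < U) (hUD : U ≤ D) (hxP : x ≤ P) (hx : 0 < x)
    (hA1 : HasA S {y} u W U) (hA2 : HasA S {y, u} v W D) (hR1 : RepP S y {y} u W U P)
    (hR2 : RepP S y {y, u} v W D P) {e₀ : ℝ} (he₀ : 0 < e₀) :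
    Bas S (fun J F A => ∃ B : F.Ω → Prop, Sub B A ∧ Pe F.p A ≤ 4 * Pe F.p B ∧
      ∃ (au cu av cv th : PtT F → ℝ) (ths ju jv : LnT F → ℝ) (e Mu Mv Nu Nv : ℕ),
        e ≤ ⌊e₀ * J⌋₊ ∧ ⌊(U - W + x) * J⌋₊ ≤ Mu ∧ ⌊(D - W + x) * J⌋₊ ≤ Mv ∧
        ⌊(U - W - e₀) * J⌋₊ ≤ Nu ∧ ⌊(D - W - e₀) * J⌋₊ ≤ Nv ∧
        NDn F B y u v ⌊W * J⌋₊ e Mu Mv Nu Nv au cu av cv th ths ju jv) := by
  classical
  obtain ⟨xu, hxu, hR1⟩ := hR1
  obtain ⟨xv, hxv, hR2⟩ := hR2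
  obtain ⟨e₁, he₁⟩ : ∃ e₁, e₁ = min e₀ ((U - W) / 2) := ⟨_, rfl⟩
  have he₁0 : 0 < e₁ := by rw [he₁]; exact lt_min he₀ (by linarith)
  have he₁1 : e₁ ≤ e₀ := by rw [he₁]; exact min_le_left _ _
  have he₁2 : e₁ ≤ (U - W) / 2 := by rw [he₁]; exact min_le_right _ _
  obtain ⟨x₁, hx₁⟩ : ∃ x₁, x₁ = min (min xu xv) (e₁ / 16) := ⟨_, rfl⟩
  have hx₁0 : 0 < x₁ := by rw [hx₁]; exact lt_min (lt_min hxu hxv) (by linarith)
  have hx₁u : x₁ ≤ xu := by rw [hx₁]; exact (min_le_left _ _).trans (min_le_left _ _)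
  have hx₁v : x₁ ≤ xv := by rw [hx₁]; exact (min_le_left _ _).trans (min_le_right _ _)
  have hx₁e : x₁ ≤ e₁ / 16 := by rw [hx₁]; exact min_le_right _ _
  have hspr := bas_part (Pool.OWN72.spr_cls htm hact (γ := x₁) (η := 1 / 4) hx₁0
    (by norm_num)) 4
  obtain ⟨J₁, hJ₁⟩ := exists_nat_ge (8 / e₁)
  refine Bas.mono J₁ ((((hA1 x₁ hx₁0).and (hA2 x₁ hx₁0)).and (hR1 x₁ hx₁0 hx₁u (1 / 4)
    (by norm_num))).and ((bas_part (hR2 x₁ hx₁0 hx₁v (1 / 4) (by norm_num)) 4).and hspr)) ?_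
  rintro J hJ F A ⟨⟨⟨⟨a₁, c₁, hl₁⟩, ⟨a₂, c₂, hl₂⟩⟩, hr1⟩, hr2, hsp⟩
  have hJr : (J₁ : ℝ) ≤ J := by exact_mod_cast hJ
  have hJ0 : (0 : ℝ) ≤ J := Nat.cast_nonneg J
  have q0 : 8 ≤ e₁ * J := by
    have h1 := hJ₁.trans hJr
    rw [div_le_iff₀ he₁0] at h1
    linarith
  have q1 : x₁ * J ≤ e₁ / 16 * J := mul_le_mul_of_nonneg_right hx₁e hJ0
  have q2 : e₁ * J ≤ (U - W) / 2 * J := mul_le_mul_of_nonneg_right he₁2 hJ0
  have hcast : ∀ a b : ℕ, (a : ℝ) ≤ b → a ≤ b := fun a b h => by exact_mod_cast h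
  obtain ⟨ex, hex⟩ : ∃ ex, ex = ⌊x₁ * (J : ℝ)⌋₊ := ⟨_, rfl⟩
  have hex1 : (ex : ℝ) ≤ x₁ * J := by rw [hex]; exact Nat.floor_le (by positivity)
  obtain ⟨e, he⟩ : ∃ e, e = ⌊e₁ * (J : ℝ)⌋₊ := ⟨_, rfl⟩
  have he1 : e₁ * (J : ℝ) - 1 < e := by rw [he]; exact Nat.sub_one_lt_floor _
  have hee : ex + 3 ≤ e := hcast _ _ (by
    push_cast
    linarith)
  obtain ⟨B₁, b11, b12, p₁, q₁, b13⟩ := hr1 a₁ c₁ hl₁
  have hPA := Pe_nonneg F.isLaw A
  have hPB₁ := Pe_nonneg F.isLaw B₁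
  obtain ⟨B₂, b21, b22, p₂, q₂, b23⟩ := hr2 B₁ b11 (by linarith) a₂ c₂ (hl₂.sub b11)
  have hPB₂ := Pe_nonneg F.isLaw B₂
  have hB₂A : Sub B₂ A := fun ω hω => b11 ω (b21 ω hω)
  -- the bounds of the residues
  have key : ∀ (N : ℝ), U ≤ N → ∀ (n₁ n₃ : ℕ), n₁ = ⌊(N - W - x₁) * (J : ℝ)⌋₊ →
      n₃ = ⌊(N - W + P) * (J : ℝ)⌋₊ → n₁ ≤ n₃ ∧ ex + 1 + ⌊(N - W - e₁) * (J : ℝ)⌋₊ ≤ n₁ := by
    intro N hN n₁ n₃ h1 h2
    refine ⟨by
      rw [h1, h2]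
      exact Nat.floor_le_floor (mul_le_mul_of_nonneg_right (by linarith) hJ0), hcast _ _ ?_⟩
    have h3 : (N - W - x₁) * (J : ℝ) - 1 < n₁ := by rw [h1]; exact Nat.sub_one_lt_floor _
    have h4 : (⌊(N - W - e₁) * (J : ℝ)⌋₊ : ℝ) ≤ (N - W - e₁) * J :=
      Nat.floor_le (mul_nonneg (by linarith) hJ0)
    push_cast
    linarith
  obtain ⟨nu, hnu⟩ : ∃ n, n = ⌊(U - W - x₁) * (J : ℝ)⌋₊ := ⟨_, rfl⟩
  obtain ⟨mu, hmu⟩ : ∃ n, n = ⌊(U - W + P) * (J : ℝ)⌋₊ := ⟨_, rfl⟩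
  obtain ⟨nv, hnv⟩ : ∃ n, n = ⌊(D - W - x₁) * (J : ℝ)⌋₊ := ⟨_, rfl⟩
  obtain ⟨mv, hmv⟩ : ∃ n, n = ⌊(D - W + P) * (J : ℝ)⌋₊ := ⟨_, rfl⟩
  obtain ⟨Nu, hNu⟩ : ∃ n, n = ⌊(U - W - e₁) * (J : ℝ)⌋₊ := ⟨_, rfl⟩
  obtain ⟨Nv, hNv⟩ : ∃ n, n = ⌊(D - W - e₁) * (J : ℝ)⌋₊ := ⟨_, rfl⟩
  obtain ⟨k1, k2⟩ := key U le_rfl nu mu hnu hmu
  obtain ⟨k3, k4⟩ := key D hUD nv mv hnv hmv
  rw [← hNu] at k2
  rw [← hNv] at k4
  rw [← hnu, ← hex] at hl₁
  rw [← hnv, ← hex] at hl₂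
  rw [← hmu] at b13
  rw [← hmv] at b23
  rw [← hex] at hsp
  have res : ∀ (n n' : ℕ), n ≤ n' → ∀ X r : ℝ, |X| ≤ 1 / 2 ^ n → |X - r| ≤ 1 / 2 ^ n' →
      |r| ≤ 2 / 2 ^ n := by
    intro n n' hn X r h1 h2
    have h3 : (1 : ℝ) / 2 ^ n' ≤ 1 / 2 ^ n :=
      one_div_le_one_div_of_le (by positivity) (pow_le_pow_right₀ (by norm_num) hn)
    have e1 : r = X - (X - r) := by ring
    rw [e1]
    refine (abs_sub _ _).trans ?_
    have e2 : (2 : ℝ) / 2 ^ n = 1 / 2 ^ n + 1 / 2 ^ n := by ring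
    linarith
  obtain ⟨B₃, b31, b32, b33⟩ := hsp B₂ hB₂A (by linarith) p₁ q₁ (2 / 2 ^ nu) (by positivity)
    (fun ω hω => by
      refine res nu mu k1 _ _ (hl₁.dp ω (hB₂A ω hω)).2.2 ?_
      have h1 := b13 ω (b21 ω hω)
      rw [← sub_sub]
      exact h1)
  have hPB₃ := Pe_nonneg F.isLaw B₃
  have hB₃A : Sub B₃ A := fun ω hω => hB₂A ω (b31 ω hω)
  obtain ⟨B₄, b41, b42, b43⟩ := hsp B₃ hB₃A (by linarith) p₂ q₂ (2 / 2 ^ nv) (by positivity)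
    (fun ω hω => by
      refine res nv mv k3 _ _ (hl₂.dp ω (hB₃A ω hω)).2.2 ?_
      have h1 := b23 ω (b31 ω hω)
      rw [← sub_sub]
      exact h1)
  have hB₄A : Sub B₄ A := fun ω hω => hB₃A ω (b41 ω hω)
  have sm : ∀ (n N : ℕ), ex + 1 + N ≤ n → ∀ q : ℝ, |q| ≤ 2 ^ ex * (2 / 2 ^ n) →
      |q| ≤ 1 / 2 ^ N := by
    intro n N hn q hq
    refine hq.trans ?_
    have e1 : (2 : ℝ) ^ ex * (2 / 2 ^ n) = 2 ^ (ex + 1) / 2 ^ n := by rw [pow_succ]; ring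
    rw [e1, div_le_div_iff₀ (by positivity) (by positivity), one_mul, ← pow_add]
    exact pow_le_pow_right₀ (by norm_num) hn
  have qu : ∀ ω, B₄ ω → |q₁ (ptr F J ω)| ≤ 1 / 2 ^ Nu := fun ω hω =>
    sm nu Nu k2 _ (b33 ω (b41 ω hω))
  have qv : ∀ ω, B₄ ω → |q₂ (ptr F J ω)| ≤ 1 / 2 ^ Nv := fun ω hω =>
    sm nv Nv k4 _ (b43 ω hω)
  have le1 : ∀ n : ℕ, (1 : ℝ) / 2 ^ n ≤ 1 := fun n => by
    rw [div_le_one (by positivity)]
    exact one_le_pow₀ (by norm_num)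
  have sz : ∀ (a q : ℝ), |a| ≤ 2 ^ ex → |q| ≤ 4 → |a + q| ≤ 2 ^ e := by
    intro a q h1 h2
    refine (abs_add_le _ _).trans ?_
    have h3 : (2 : ℝ) ^ (ex + 3) ≤ 2 ^ e := pow_le_pow_right₀ (by norm_num) hee
    have h4 : (1 : ℝ) ≤ 2 ^ ex := one_le_pow₀ (by norm_num)
    rw [pow_add] at h3
    linarith
  have szp : ∀ (n : ℕ) (p q d : ℝ), |p + q * d| ≤ 2 / 2 ^ n → |q| ≤ 1 → |d| ≤ 1 → |p| ≤ 4 := by
    intro n p q d h1 h2 h3
    have h4 : |q * d| ≤ 1 := by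
      rw [abs_mul]
      exact mul_le_one₀ h2 (abs_nonneg _) h3
    have h5 : (2 : ℝ) / 2 ^ n ≤ 2 := by
      have := le1 n
      have e2 : (2 : ℝ) / 2 ^ n = 2 * (1 / 2 ^ n) := by ring
      linarith
    have e1 : p = p + q * d - q * d := by ring
    rw [e1]
    refine (abs_sub _ _).trans ?_
    linarith
  obtain ⟨ju, hju⟩ := hl₁.ca y (Finset.mem_singleton_self y)
  obtain ⟨jv, hjv⟩ := hl₂.ca y (Finset.mem_insert_self y {u})
  obtain ⟨ths, hths⟩ := hl₂.ca u (by simp)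
  refine ⟨B₄, hB₄A, by linarith, fun p => a₁ p y + q₁ p, fun p => c₁ p + p₁ p,
    fun p => a₂ p y + q₂ p, fun p => c₂ p + p₂ p, fun p => a₂ p u, ths, ju, jv, e, mu, mv, Nu, Nv,
    ?_, ?_, ?_, ?_, ?_, ?_⟩
  · rw [he]
    exact Nat.floor_le_floor (mul_le_mul_of_nonneg_right he₁1 hJ0)
  · rw [hmu]
    exact Nat.floor_le_floor (mul_le_mul_of_nonneg_right (by linarith) hJ0)
  · rw [hmv]
    exact Nat.floor_le_floor (mul_le_mul_of_nonneg_right (by linarith) hJ0)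
  · rw [hNu]
    exact Nat.floor_le_floor (mul_le_mul_of_nonneg_right (by linarith) hJ0)
  · rw [hNv]
    exact Nat.floor_le_floor (mul_le_mul_of_nonneg_right (by linarith) hJ0)
  · have rel1 : ∀ ω, B₂ ω → |p₁ (ptr F J ω) + q₁ (ptr F J ω) * F.d ω y| ≤ 2 / 2 ^ nu := by
      intro ω hω
      refine res nu mu k1 _ _ (hl₁.dp ω (hB₂A ω hω)).2.2 ?_
      have h1 := b13 ω (b21 ω hω)
      rw [← sub_sub]
      exact h1
    have rel2 : ∀ ω, B₂ ω → |p₂ (ptr F J ω) + q₂ (ptr F J ω) * F.d ω y| ≤ 2 / 2 ^ nv := by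
      intro ω hω
      refine res nv mv k3 _ _ (hl₂.dp ω (hB₂A ω hω)).2.2 ?_
      have h1 := b23 ω hω
      rw [← sub_sub]
      exact h1
    refine ⟨fun ω hω => hths ω (hB₄A ω hω), fun ω hω => ?_, fun ω hω => ⟨?_, ?_⟩,
      fun ω hω => ⟨?_, ?_⟩, fun ω hω => ?_, fun ω hω => ?_, fun ω hω => ?_, fun ω hω => ?_⟩
    · have h1 := (hl₂.dp ω (hB₄A ω hω)).1 u (by simp)
      have h2 := sz _ 0 h1 (by norm_num)
      rwa [add_zero] at h2
    · exact sz _ _ ((hl₁.dp ω (hB₄A ω hω)).1 y (Finset.mem_singleton_self y))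
        (((qu ω hω).trans (le1 _)).trans (by norm_num))
    · refine sz _ _ (hl₁.dp ω (hB₄A ω hω)).2.1 ?_
      exact szp nu _ _ _ (rel1 ω (b31 ω (b41 ω hω))) ((qu ω hω).trans (le1 _)) (F.dir ω y)
    · exact sz _ _ ((hl₂.dp ω (hB₄A ω hω)).1 y (Finset.mem_insert_self y {u}))
        (((qv ω hω).trans (le1 _)).trans (by norm_num))
    · refine sz _ _ (hl₂.dp ω (hB₄A ω hω)).2.1 ?_
      exact szp nv _ _ _ (rel2 ω (b31 ω (b41 ω hω))) ((qv ω hω).trans (le1 _)) (F.dir ω y)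
    · have h1 := b13 ω (b21 ω (b31 ω (b41 ω hω)))
      rw [Finset.sum_singleton] at h1
      have e1 : F.d ω u - (c₁ (ptr F J ω) + p₁ (ptr F J ω)) -
          (a₁ (ptr F J ω) y + q₁ (ptr F J ω)) * F.d ω y = F.d ω u - c₁ (ptr F J ω) -
          a₁ (ptr F J ω) y * F.d ω y - p₁ (ptr F J ω) - q₁ (ptr F J ω) * F.d ω y := by ring
      rw [e1]
      exact h1
    · have h1 := b23 ω (b31 ω (b41 ω hω))
      rw [Finset.sum_pair hyu] at h1
      have e1 : F.d ω v - a₂ (ptr F J ω) u * F.d ω u - (c₂ (ptr F J ω) + p₂ (ptr F J ω)) -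
          (a₂ (ptr F J ω) y + q₂ (ptr F J ω)) * F.d ω y = F.d ω v - c₂ (ptr F J ω) -
          (a₂ (ptr F J ω) y * F.d ω y + a₂ (ptr F J ω) u * F.d ω u) - p₂ (ptr F J ω) -
          q₂ (ptr F J ω) * F.d ω y := by ring
      rw [e1]
      exact h1
    · rw [← hju ω (hB₄A ω hω)]
      have e1 : a₁ (ptr F J ω) y - (a₁ (ptr F J ω) y + q₁ (ptr F J ω)) =
          - q₁ (ptr F J ω) := by ring
      rw [e1, abs_neg]
      exact qu ω hω
    · rw [← hjv ω (hB₄A ω hω)]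
      have e1 : a₂ (ptr F J ω) y - (a₂ (ptr F J ω) y + q₂ (ptr F J ω)) =
          - q₂ (ptr F J ω) := by ring
      rw [e1, abs_neg]
      exact qv ω hω

/-- **The fourth coordinate over the first three.** -/
theorem hasA3 {S : PCl m} {C₀ : ℝ} (htm : TmC S C₀)
    {L : Finset (Fin m) → Fin m → ℝ → ℝ → ℝ} (hL : LamW S L) {c : ℕ → Fin m}
    (hc : Set.InjOn c (Set.Iio 3)) {k : Fin m} (hact : ActF S (c 0)) {W N : ℝ} (hW0 : 0 < W)
    (hcont : ContinuousAt (fun W => L {c 0} (c 1) W 0) W) (hUW : W < L {c 0} (c 1) W 0)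
    (hUD : L {c 0} (c 1) W 0 ≤ L {c 0, c 1} (c 2) W 0) (hD1 : L {c 0, c 1} (c 2) W 0 < 1)
    {s : ℕ → ℝ} (hs1 : s 1 = L {c 0} (c 1) W 0) (hs2 : s 2 = L {c 0, c 1} (c 2) W 0)
    (hbase : ∀ t : ℝ, W < t → t < 1 → Ful S {c 0} W t) (hful : FulC S c 1 3 W s)
    (hA1 : HasA S {c 0} (c 1) W (L {c 0} (c 1) W 0))
    (hA2 : HasA S {c 0, c 1} (c 2) W (L {c 0, c 1} (c 2) W 0)) {P : ℝ} (hP : 0 < P)
    (hR1 : RepP S (c 0) {c 0} (c 1) W (L {c 0} (c 1) W 0) P)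
    (hR2 : RepP S (c 0) {c 0, c 1} (c 2) W (L {c 0, c 1} (c 2) W 0) P)
    (hN : ∀ ε : ℝ, 0 < ε → ∃ W' r' : ℝ, W' < W ∧ r' < 1 ∧
      N ≤ L {c 0, c 1, c 2} k W' r' + ε) {x : ℝ} (hx : 0 < x) :
    ∃ C : ℝ, Bas S (fun J F A => ∃ B : F.Ω → Prop, Sub B A ∧
      Pe F.p A ≤ C * Pe F.p B ∧ ∃ (a : PtT F → Fin m → ℝ) (ct : PtT F → ℝ),
        ClA F B {c 0, c 1, c 2} k ⌊W * J⌋₊ ⌊x * J⌋₊ ⌊(N - W - x) * J⌋₊ a ct) := by
  classical
  rcases le_or_gt (N - W) x with hc' | hc'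
  · exact hasA_triv {c 0, c 1, c 2} k hc'
  have h01 : c 0 ≠ c 1 := fun h => by
    have := hc (show (0 : ℕ) < 3 by norm_num) (show (1 : ℕ) < 3 by norm_num) h
    omega
  obtain ⟨W', r', hW', hr', hNL⟩ := hN (x / 8) (by linarith)
  obtain ⟨x₂, hx₂⟩ : ∃ x₂, x₂ = min (min P (x / 4)) (1 - L {c 0, c 1} (c 2) W 0) := ⟨_, rfl⟩
  have hx₂0 : 0 < x₂ := by
    rw [hx₂]
    exact lt_min (lt_min hP (by linarith)) (by linarith)
  have hx₂P : x₂ ≤ P := by rw [hx₂]; exact (min_le_left _ _).trans (min_le_left _ _)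
  have hx₂x : x₂ ≤ x / 4 := by rw [hx₂]; exact (min_le_left _ _).trans (min_le_right _ _)
  have hx₂D : x₂ ≤ 1 - L {c 0, c 1} (c 2) W 0 := by rw [hx₂]; exact min_le_right _ _
  obtain ⟨e₀, he₀, C, hC, h₀⟩ := Pool.JVE.R6.aff_tcr (k := k) (q := N - W - x / 2) htm hL hc hact
    hW' hW0 hr' hx₂0 (by linarith) (by linarith) hcont hUW hUD (by linarith) hs1 hs2 hbase hful
  have h₁ := ndn_cls htm h01 hact hUW hUD hx₂P hx₂0 hA1 hA2 hR1 hR2 he₀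
  refine ⟨4 * C, Bas.mono 0 (h₁.and (bas_part h₀ 4)) ?_⟩
  rintro J - F A ⟨⟨B, b1, b2, au, cu, av, cv, th, ths, ju, jv, e, Mu, Mv, Nu, Nv, n1, n2, n3, n4,
    n5, hnd⟩, hb⟩
  have hJ0 : (0 : ℝ) ≤ J := Nat.cast_nonneg J
  obtain ⟨B', d1, d2, d3⟩ := hb B b1 b2 au cu av cv th ths ju jv e Mu Mv Nu Nv n1 n2 n3 n4 n5 hnd
  obtain ⟨a, ct, hcl⟩ := lb_cla (d3 0) (Nat.le_add_right _ _)
  rw [Nat.add_sub_cancel_left] at hcl
  refine ⟨B', fun ω hω => b1 ω (d1 ω hω), ?_, a, ct, cla_mono hcl le_rfl ?_ ?_ ?_⟩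
  · linarith
  · refine Nat.floor_le_of_le ?_
    have h1 : W ≤ 1 := by linarith
    nlinarith
  · exact Nat.floor_le_floor (mul_le_mul_of_nonneg_right (by linarith) hJ0)
  · exact Nat.floor_le_floor (mul_le_mul_of_nonneg_right (by linarith) hJ0)

/-- The condition of 91 for equal chains. -/
theorem fulC_congr {S : PCl m} {c c' : ℕ → Fin m} {r₀ r : ℕ} {w : ℝ} {s s' : ℕ → ℝ}
    (hc : ∀ i < r, c i = c' i) (hs : ∀ i, r₀ ≤ i → i < r → s i = s' i)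
    (h : FulC S c r₀ r w s) : FulC S c' r₀ r w s' := by
  intro ρ hρ
  refine Bas.mono 0 (h ρ hρ) ?_
  intro J _ F A h1 V z z' hz i hi hir
  have h2 := h1 V z z' hz i hi hir
  have e1 : (fun ω (l' : Fin i) => F.X J ω (c l')) = fun ω (l' : Fin i) => F.X J ω (c' l') := by
    funext ω l'
    rw [hc l' (l'.2.trans hir)]
  have e2 : ∀ ω, (fun l' : Fin i => F.X J ω (c l')) = fun l' : Fin i => F.X J ω (c' l') :=
    fun ω => congrFun e1 ω
  rw [hc i hir, hs i hi hir] at h2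
  simp only [e2] at h2
  exact h2

theorem repP_sub {S S' : PCl m} (hs : ∀ (τ : ℝ) (J : ℕ) (F : Fam m J) (A : F.Ω → Prop),
    S'.St τ J F A → S.St τ J F A) {y : Fin m} {I : Finset (Fin m)} {v : Fin m} {w N P : ℝ}
    (h : RepP S y I v w N P) : RepP S' y I v w N P := by
  obtain ⟨x₀, hx₀, h⟩ := h
  exact ⟨x₀, hx₀, fun x hx hxx η hη => (h x hx hxx η hη).sub hs⟩

/-- **All labels over three coordinates at the rational windows**, in one subclass. -/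
theorem hasA3_rat {S : PCl m} (hS : S.Ne) {C₀ : ℝ} (htm : TmC S C₀)
    {L : Finset (Fin m) → Fin m → ℝ → ℝ → ℝ} (hL : LamW S L) :
    ∃ S' : PCl m, S'.Ne ∧
      (∀ (τ : ℝ) (J : ℕ) (F : Fam m J) (A : F.Ω → Prop), S'.St τ J F A → S.St τ J F A) ∧
      ∀ (c : ℕ → Fin m) (k : Fin m) (W : ℚ) (N : ℝ) (s : ℕ → ℝ) (P : ℝ),
        Set.InjOn c (Set.Iio 3) → ActF S (c 0) → 0 < (W : ℝ) →
        ContinuousAt (fun W => L {c 0} (c 1) W 0) W → (W : ℝ) < L {c 0} (c 1) W 0 →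
        L {c 0} (c 1) W 0 ≤ L {c 0, c 1} (c 2) W 0 → L {c 0, c 1} (c 2) W 0 < 1 →
        s 1 = L {c 0} (c 1) W 0 → s 2 = L {c 0, c 1} (c 2) W 0 →
        (∀ t : ℝ, (W : ℝ) < t → t < 1 → Ful S {c 0} W t) → FulC S c 1 3 W s →
        HasA S {c 0} (c 1) W (L {c 0} (c 1) W 0) →
        HasA S {c 0, c 1} (c 2) W (L {c 0, c 1} (c 2) W 0) → 0 < P →
        RepP S (c 0) {c 0} (c 1) W (L {c 0} (c 1) W 0) P →
        RepP S (c 0) {c 0, c 1} (c 2) W (L {c 0, c 1} (c 2) W 0) P →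
        (∀ ε : ℝ, 0 < ε → ∃ W' r' : ℝ, W' < W ∧ r' < 1 ∧
          N ≤ L {c 0, c 1, c 2} k W' r' + ε) →
        HasA S' {c 0, c 1, c 2} k W N := by
  classical
  obtain ⟨S', a1, a2, a3⟩ := hasA_cnt hS (ι := (Fin 3 → Fin m) × Fin m × ℚ × ℚ)
    (fun i => (i.2.2.1 : ℝ) ≤ 1 ∧ ∀ x : ℝ, 0 < x → ∃ C : ℝ, Bas S (fun J F A =>
      ∃ B : F.Ω → Prop, Sub B A ∧ Pe F.p A ≤ C * Pe F.p B ∧
      ∃ (a : PtT F → Fin m → ℝ) (ct : PtT F → ℝ),
        ClA F B {i.1 0, i.1 1, i.1 2} i.2.1 ⌊(i.2.2.1 : ℝ) * J⌋₊ ⌊x * J⌋₊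
          ⌊((i.2.2.2 : ℝ) - i.2.2.1 - x) * J⌋₊ a ct))
    (fun i => {i.1 0, i.1 1, i.1 2}) (fun i => i.2.1) (fun i => i.2.2.1) (fun i => i.2.2.2)
    (fun i hi => hi.1) (fun i hi => hi.2)
  refine ⟨S', a1, a2, ?_⟩
  intro c k W N s P hc hact hW0 hcont hUW hUD hD1 hs1 hs2 hbase hful hA1 hA2 hP hR1 hR2 hN
  refine hasA_lim (fun N' hN' => ?_) (by linarith)
  have h1 := a3 ((fun i : Fin 3 => c i), k, W, N') ⟨by
    show (W : ℝ) ≤ 1
    linarith, fun x hx => hasA3 htm hL hc hact hW0 hcont hUW hUD hD1 hs1 hs2 hbase hful hA1 hA2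
      hP hR1 hR2 (fun ε hε => by
        obtain ⟨W', r', k1, k2, k3⟩ := hN ε hε
        exact ⟨W', r', k1, k2, hN'.le.trans k3⟩) hx⟩
  exact h1

end Pool.PRV
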